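import Pool.Agent.H52.P5.Lab5
import Pool.Agent.H12.P5.Stm
import Pool.Agent.H36.LBQ.Int5
import Pool.Agent.H52.P4.NumC

/-!
# P5: the label of a cell, from the covector

`labS5`: the covector of `cov5` gives a new thin label at `(i, j + 1)`. `num_cell5`: the numbers.
-/

set_option autoImplicit false

namespace Pool.P5

open Finset Real MvPolynomial
open Pool.Agent.H49.Ent Pool.Agent.H32.Dense Pool.STK Pool.STAT Pool.MIC.Frm Pool.FRM
open Pool.P4 (t0 rt pp bb ze zt z0 be cl1 dg dgp Ry cb LLC tq GoodS FrP GnL NewLabT Fx Dic LT Lt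
  NBT MF rcd cMx cM dg_near rt_near sum_le_c ex_one ex_mono ex_c bb_wn win_le)
open Pool.STAT.Glu (kN)
open Pool.LBL (Ld psi3)
open Pool.BFL (Pb)

/-- The digits of a slope. -/
theorem dig_E5 {X z : ℕ} {C s : ℝ} (hC : 0 ≤ C) (h : |s| ≤ exp (C * z)) :
    |(dg X (s * (2 * Ry z C) / Rg z C) : ℝ) / 2 ^ X - (exp (2 * C * z))⁻¹ * s| ≤ 1 / 2 ^ X := by
  have hz : (0 : ℝ) ≤ z := Nat.cast_nonneg z
  have e1 : s * (2 * Ry z C) / Rg z C = (exp (2 * C * z))⁻¹ * s := by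
    unfold Ry Rg
    have h1 : exp (3 * C * z) = exp (2 * C * z) * exp (C * z) := by
      rw [← exp_add]
      ring_nf
    rw [h1]
    have h2 : exp (C * z) ≠ 0 := (exp_pos _).ne'
    have h3 : exp (2 * C * z) ≠ 0 := (exp_pos _).ne'
    field_simp
  have h2 : |(exp (2 * C * z))⁻¹ * s| ≤ 1 := by
    rw [abs_mul, abs_of_pos (inv_pos.2 (exp_pos _)), inv_mul_le_iff₀ (exp_pos _), mul_one]
    refine h.trans (exp_le_exp.2 ?_)
    nlinarith
  have h3 := dg_near (X := X) h2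
  rw [e1]
  have hX : (0 : ℝ) < 2 ^ X := by positivity
  have e2 : (dg X ((exp (2 * C * z))⁻¹ * s) : ℝ) / 2 ^ X - (exp (2 * C * z))⁻¹ * s =
      ((dg X ((exp (2 * C * z))⁻¹ * s) : ℝ) - 2 ^ X * ((exp (2 * C * z))⁻¹ * s)) / 2 ^ X := by
    field_simp
  rw [e2, abs_div, abs_of_pos hX]
  exact div_le_div_of_nonneg_right h3 hX.le

/-- **From rounded slopes to slopes**, a polynomial of the time. -/
theorem dig_gen {c X d : ℕ} {N δ τ Ef : ℝ} (hEf : 0 < Ef) {t : ℤ} {f s Sd : Fin c → ℝ}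
    {p : Polynomial ℝ} (hs : ∀ i, |Sd i - Ef⁻¹ * s i| ≤ 1 / 2 ^ X) (hf : ∀ i, |f i| ≤ N)
    (hN : 0 ≤ N) (hp : PB d N p) (ht : |(t : ℝ) - 2 ^ X * τ| ≤ 1) (hτ : |τ| ≤ 1)
    (h : |∑ i, f i * Sd i - p.eval ((t : ℝ) / 2 ^ X)| ≤ δ) :
    |∑ i, f i * s i - (Polynomial.C Ef * p).eval τ| ≤
      Ef * (δ + (c + lpc d) * (N / 2 ^ X)) := by
  have hX : (0 : ℝ) < 2 ^ X := by positivity
  have hX1 : (1 : ℝ) ≤ 2 ^ X := one_le_pow₀ (by norm_num)
  have k1 : |∑ i, f i * Sd i - ∑ i, f i * (Ef⁻¹ * s i)| ≤ c * (N * (1 / 2 ^ X)) := by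
    rw [← Finset.sum_sub_distrib]
    refine (Finset.abs_sum_le_sum_abs _ _).trans ?_
    have : ∀ i ∈ (univ : Finset (Fin c)), |f i * Sd i - f i * (Ef⁻¹ * s i)| ≤
        N * (1 / 2 ^ X) := by
      intro i _
      rw [← mul_sub, abs_mul]
      exact mul_le_mul (hf i) (hs i) (abs_nonneg _) hN
    refine (Finset.sum_le_sum this).trans (le_of_eq ?_)
    rw [Finset.sum_const, Finset.card_univ, Fintype.card_fin, nsmul_eq_mul]
  have ht2 : |(t : ℝ) / 2 ^ X - τ| ≤ 1 / 2 ^ X := by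
    have e2 : (t : ℝ) / 2 ^ X - τ = ((t : ℝ) - 2 ^ X * τ) / 2 ^ X := by
      field_simp
    rw [e2, abs_div, abs_of_pos hX]
    exact div_le_div_of_nonneg_right ht hX.le
  have k2 : |p.eval ((t : ℝ) / 2 ^ X) - p.eval τ| ≤ lpc d * N * (1 / 2 ^ X) := by
    refine hp.lip ?_ (by linarith) ht2
    have h3 : (1 : ℝ) / 2 ^ X ≤ 1 := by
      rw [div_le_one hX]
      exact hX1
    have := abs_add_le ((t : ℝ) / 2 ^ X - τ) τ
    rw [sub_add_cancel] at this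
    linarith
  have e1 : ∑ i, f i * s i = Ef * ∑ i, f i * (Ef⁻¹ * s i) := by
    rw [Finset.mul_sum]
    refine Finset.sum_congr rfl fun i _ => ?_
    field_simp
  have e2 : ∑ i, f i * s i - (Polynomial.C Ef * p).eval τ =
      Ef * (∑ i, f i * (Ef⁻¹ * s i) - p.eval τ) := by
    rw [e1, Polynomial.eval_mul, Polynomial.eval_C]
    ring
  rw [e2, abs_mul, abs_of_pos hEf]
  refine mul_le_mul_of_nonneg_left ?_ hEf.le
  have e3 : (c : ℝ) * (N * (1 / 2 ^ X)) = c * (N / 2 ^ X) := by ring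
  have e4 : lpc d * N * (1 / 2 ^ X) = lpc d * (N / 2 ^ X) := by ring
  rw [e3] at k1
  rw [e4] at k2
  rw [abs_le] at h k1 k2 ⊢
  constructor
  · linarith [h.1, k1.2, k2.1, k2.2]
  · linarith [h.2, k1.1, k2.1, k2.2]

/-- The polynomial with the coefficients `e`. -/
noncomputable def pol3 (e : Fin 3 → ℝ) : Polynomial ℝ :=
  Polynomial.C (e 0) + Polynomial.C (e 1) * Polynomial.X +
    Polynomial.C (e 2) * Polynomial.X ^ 2

theorem pol3_ev (e : Fin 3 → ℝ) (s : ℝ) : (pol3 e).eval s = e 0 + e 1 * s + e 2 * s ^ 2 := by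
  unfold pol3
  simp

theorem pol3_pb {e : Fin 3 → ℝ} {N : ℝ} (h : ∀ j, |e j| ≤ N) : PB 2 N (pol3 e) := by
  have hN : 0 ≤ N := (abs_nonneg _).trans (h 0)
  refine ⟨?_, fun i => ?_⟩
  · unfold pol3
    refine (Polynomial.natDegree_add_le _ _).trans (max_le ?_ ?_)
    · refine (Polynomial.natDegree_add_le _ _).trans (max_le ?_ ?_)
      · rw [Polynomial.natDegree_C]
        exact Nat.zero_le _
      · exact (Polynomial.natDegree_C_mul_le _ _).trans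
          (Polynomial.natDegree_X_le.trans (by norm_num))
    · exact Polynomial.natDegree_C_mul_X_pow_le _ _
  · have e1 : (pol3 e).coeff i = (if i = 0 then e 0 else 0) + (if i = 1 then e 1 else 0) +
        (if i = 2 then e 2 else 0) := by
      unfold pol3
      rw [Polynomial.coeff_add, Polynomial.coeff_add, Polynomial.coeff_C,
        Polynomial.coeff_C_mul, Polynomial.coeff_X, Polynomial.coeff_C_mul_X_pow]
      simp only [mul_ite, mul_one, mul_zero]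
      congr 2
      by_cases h1 : i = 1
      · rw [if_pos h1, if_pos h1.symm]
      · rw [if_neg h1, if_neg fun h2 => h1 h2.symm]
    rw [e1]
    rcases lt_trichotomy i 1 with h1 | h1 | h1
    · have h2 : i = 0 := by omega
      rw [if_pos h2, if_neg (by omega), if_neg (by omega), add_zero, add_zero]
      exact h 0
    · rw [if_neg (by omega), if_pos h1, if_neg (by omega), add_zero, zero_add]
      exact h 1
    · rw [if_neg (by omega), if_neg (by omega)]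
      split_ifs
      · rw [zero_add, zero_add]
        exact h 2
      · rw [zero_add, zero_add, abs_zero]
        exact hN

/-- The data of a place, from the cell. -/
theorem Hyp.fx5 {D : NDat2} {n K K' J a₀ w₀ z M w i j r r2 r' r'' y a X : ℕ} {lam gam : ℕ → ℝ}
    {κ C₁ C C₀ : ℝ} {q : D.Ω → ℝ} {E : D.Ω → Prop} {P : D.Γ × D.Γ → ℕ → PN} {S : Slo D}
    {c k0 k1 : ℕ} {ys : Fin (k0 + k1) → ℕ} {gs : Fin c → ℕ}
    (H : Hyp D n K K' J a₀ w₀ z M w i j r r2 r' r'' y a X lam gam κ C₁ C q E P S ys gs)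
    (hg : Geo D n K' J w₀ z i j r r2 r' r'' gam C₀ (exp (C₀ * z) / 2 ^ (y * z)) q E P S)
    (gd : ∀ ω, E ω → 0 < q ω ∧ GoodS D n K' w₀ z M C₀ ω ∧
      FrP D n K' z i j r C₀ (P (bb D i j r ω)) ω) :
    Fx D n (max K K') K K' J a₀ w₀ z M i j r r' a y lam gam κ C₁ C₀ q E P (sl gam n)
      (gr gam n) where
  ok := H.ok
  k1 := le_max_left _ _
  k2 := le_max_right _ _
  z1 := H.z1
  lam1 := H.lam1
  num := {
    i1 := by
      have := H.i2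
      omega
    j1 := H.j2.le
    r1 := H.r1.trans H.i1
    s1 := fun l hl => by
      have h1 := H.plc.stp.s1 hl
      have h2 : (0 : ℝ) ≤ y := Nat.cast_nonneg y
      linarith
    s2 := fun l hl => H.plc.stp.s2 hl
    dic := fun l h1 h2 => by
      by_cases h3 : gam n ≤ gam l
      · exact Or.inr ⟨h1, h2, h3⟩
      · refine Or.inl ⟨h1, ?_, not_le.1 h3⟩
        rcases Nat.lt_or_ge l n with h4 | h4
        · exact h4
        · exfalso
          have h5 : l = n := le_antisymm h2 h4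
          rw [h5] at h3
          exact h3 le_rfl }
  iM := by
    have := H.i2
    omega
  jM := H.j2
  ai := H.plc.a1
  rj := H.j1
  ya := H.plc.stp.ya
  dic := {
    s1 := fun l hl => ⟨hl.1, hl.2.1⟩
    g1 := fun l hl => ⟨hl.1, hl.2.1⟩
    dis := fun l hl hl' => absurd hl'.2.2 (not_le.2 hl.2.2) }
  fr := gd
  bz := fun ω hω l h1 h2 => hg.bz ω (gd ω hω).1 hω l h1 h2

/-- The enumeration, from the cell. -/
theorem Hyp.enm {D : NDat2} {n K K' J a₀ w₀ z M w i j r r2 r' r'' y a X : ℕ} {lam gam : ℕ → ℝ}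
    {κ C₁ C : ℝ} {q : D.Ω → ℝ} {E : D.Ω → Prop} {P : D.Γ × D.Γ → ℕ → PN} {S : Slo D}
    {c k0 k1 : ℕ} {ys : Fin (k0 + k1) → ℕ} {gs : Fin c → ℕ}
    (H : Hyp D n K K' J a₀ w₀ z M w i j r r2 r' r'' y a X lam gam κ C₁ C q E P S ys gs) :
    Enm (sl gam n) (gr gam n) ys gs :=
  ⟨H.ys_in, H.gs_in, H.ys_sl, H.gs_gr, fun _ hl => H.ys_on hl, H.gs_on⟩

/-- The window has `X` more digits. -/
theorem Hyp.wX5 {D : NDat2} {n K K' J a₀ w₀ z M w i j r r2 r' r'' y a X : ℕ} {lam gam : ℕ → ℝ}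
    {κ C₁ C : ℝ} {q : D.Ω → ℝ} {E : D.Ω → Prop} {P : D.Γ × D.Γ → ℕ → PN} {S : Slo D}
    {c k0 k1 : ℕ} {ys : Fin (k0 + k1) → ℕ} {gs : Fin c → ℕ}
    (H : Hyp D n K K' J a₀ w₀ z M w i j r r2 r' r'' y a X lam gam κ C₁ C q E P S ys gs) :
    w + X ≤ J := by
  obtain ⟨x, hx, hx'⟩ := H.Xz
  have h1 := H.ok.thin
  have h2 := H.ok.top
  have h3 := H.w2
  have h4 := H.j2
  have h5 : (j + 1) * z ≤ (M + 1) * z := Nat.mul_le_mul_right _ (by omega)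
  have h6 : x * z ≤ (M + 1) * z := Nat.mul_le_mul_right _ (by omega)
  rw [hx]
  omega

/-- The own sheets, from the geometry. -/
theorem Geo.sh5 {D : NDat2} {n K' J w₀ z M i j r r2 r' r'' y : ℕ} {gam : ℕ → ℝ} {C₀ : ℝ}
    {q : D.Ω → ℝ} {E : D.Ω → Prop} {P : D.Γ × D.Γ → ℕ → PN} {S : Slo D}
    (hg : Geo D n K' J w₀ z i j r r2 r' r'' gam C₀ (exp (C₀ * z) / 2 ^ (y * z)) q E P S)
    (gd : ∀ ω, E ω → 0 < q ω ∧ GoodS D n K' w₀ z M C₀ ω ∧
      FrP D n K' z i j r C₀ (P (bb D i j r ω)) ω) :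
    Sh5 D n z i j r r' y C₀ E P (sl gam n) (gr gam n) S.S where
  tS := fun ω hω u k huk => hg.tS ω (gd ω hω).1 hω u k huk
  sheet := fun ω hω Bx hB b h0 h1 h2 u hu => hg.sheet ω (gd ω hω).1 hω Bx hB b h0 h1 h2 u hu

open Classical in
/-- **The label of a cell**, from the covector `nD` at the exact point, `nL` at the exact line, on
which the slopes are polynomials of degree two in the time. -/
theorem labS5 (n K K' c k0 k1 : ℕ) (C₀ C₁ : ℝ) (hC₀ : 0 ≤ C₀) (hC₁ : 0 ≤ C₁) :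
    ∃ F : ℝ, 1 ≤ F ∧ ∀ (C : ℝ) (gam : ℕ → ℝ), F ≤ C → ∃ c' : ℝ, 1 ≤ c' ∧
    ∀ (D : NDat2) (U : GnL D) (R : ℕ → Prop) (J a₀ w₀ z M w i j r r2 r' r'' y a X Q A : ℕ)
      (lam : ℕ → ℝ) (κ : ℝ) (q : D.Ω → ℝ) (E : D.Ω → Prop) (P : D.Γ × D.Γ → ℕ → PN)
      (S : Slo D) (ys : Fin (k0 + k1) → ℕ) (gs : Fin c → ℕ),
      Hyp D n K K' J a₀ w₀ z M w i j r r2 r' r'' y a X lam gam κ C₁ C q E P S ys gs →
      Geo D n K' J w₀ z i j r r2 r' r'' gam C₀ (exp (C₀ * z) / 2 ^ (y * z)) q E P S →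
      (∀ ω, E ω → 0 < q ω ∧ GoodS D n K' w₀ z M C₀ ω ∧
        FrP D n K' z i j r C₀ (P (bb D i j r ω)) ω) →
      U.Ok n K J a₀ w₀ z M Q R C₁ q →
      ∀ {Ξ' : Type} (px : D.Ω → Ξ') (l : Fin c) (N δ η' : ℝ) (nD : Ξ' → Fin c → ℝ)
        (nL : LT D → Fin c → ℝ) (e : LT D → Fin 3 → Fin (k0 + k1) → ℝ) (Ev : D.Ω → Prop),
        1 ≤ N → 0 ≤ δ → (∀ ω ω', Ev ω → Ev ω' → D.pt ω = D.pt ω' → px ω = px ω') →
        (∀ x, Ld l (nD x) ∧ ∀ u, |nD x u| ≤ N) → (∀ x, Ld l (nL x) ∧ ∀ u, |nL x u| ≤ N) →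
        (∀ x j a, |e x j a| ≤ N) → η' ≤ Pb q Ev → (∀ ω, Ev ω → E ω) →
        (∀ ω, Ev ω → ∀ u, |Matrix.vecMul (nD (px ω))
            (MF i j r E (rcd D i j r a) (cMx D J a₀ z i j r a E P gs) ω) u -
            nL (Lt D J w i j r ω) u| ≤ δ) →
        (∀ ω, Ev ω → ∀ b, |∑ u, nL (Lt D J w i j r ω) u *
            ((Sv (c := c) (k0 := k0) (k1 := k1) D z X C S ys gs ω u b : ℝ) / 2 ^ X) -
          (e (Lt D J w i j r ω) 0 b + e (Lt D J w i j r ω) 1 b * ((tq J w X (D.T ω) : ℝ) / 2 ^ X) +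
            e (Lt D J w i j r ω) 2 b * ((tq J w X (D.T ω) : ℝ) / 2 ^ X) ^ 2)| ≤ δ) →
        exp (c' * z) * (N * (1 / 2 ^ (y * z) + 1 / 2 ^ X) + δ) * 2 ^ (A * z) ≤ 1 →
        j + 1 < M ∧ NewLabT D U J a₀ w₀ z Q R i (j + 1) (gs l) A (kN (max K K') 3) η' q := by
  obtain ⟨F, hF, lab⟩ := lab_cell5 n (max K K') c (k0 + k1) 2 C₀ C₁ hC₀ hC₁
  refine ⟨F, hF, ?_⟩
  intro C gam hFC
  have hC0 : 0 ≤ C := by linarith
  by_cases hgam : ∀ l, 0 ≤ gam l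
  swap
  · refine ⟨1, le_rfl, ?_⟩
    intro D U R J a₀ w₀ z M w i j r r2 r' r'' y a X Q A lam κ q E P S ys gs H
    exact absurd H.gam0 hgam
  obtain ⟨c₀, hc₀, lab⟩ := lab 0 gam le_rfl hgam
  obtain ⟨g, hg⟩ : ∃ g : ℝ, g = 2 * C + c + lpc 2 := ⟨_, rfl⟩
  have hl2 := lpc_nn 2
  have hcr : (0 : ℝ) ≤ c := Nat.cast_nonneg c
  have hg0 : 0 ≤ g := by rw [hg]; linarith
  refine ⟨c₀ + g, by linarith, ?_⟩
  intro D U R J a₀ w₀ z M w i j r r2 r' r'' y a X Q A lam κ q E P S ys gs H hgeo gd hU Ξ' px l N δ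
    η' nD nL e Ev hN hδ hpx hnD hnL he hη hEE hc3 hc4 hnum
  have hzr : (1 : ℝ) ≤ z := by exact_mod_cast H.z1
  have hN0 : 0 ≤ N := by linarith
  have hX0 : (0 : ℝ) < 2 ^ X := by positivity
  have hX1 : (1 : ℝ) ≤ 2 ^ X := one_le_pow₀ (by norm_num)
  have hFx := H.fx5 hgeo gd
  have hO := H.ok
  have hj1 : j + 1 < M := by
    have h1 := H.j2
    have h2 := H.plc.stp.er
    have h3 := H.y1
    omega
  refine ⟨hj1, ?_⟩
  have hiM' : i ≤ M := hFx.iM.le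
  have hq : ∀ ω, Ev ω → 0 < q ω := fun ω h => (gd ω (hEE ω h)).1
  have haz : exp (F * z) ≤ 2 ^ (a * z) := by
    calc exp (F * z) ≤ exp (C * z) := ex_mono hFC hzr
      _ ≤ exp (C * z) * 2 ^ X := le_mul_of_one_le_right (exp_pos _).le hX1
      _ ≤ 2 ^ (y * z) := H.yX
      _ ≤ _ := pow_le_pow_right₀ (by norm_num) (Nat.mul_le_mul_right z hFx.ya)
  obtain ⟨Ef, hEf⟩ : ∃ Ef : ℝ, Ef = exp (2 * C * z) := ⟨_, rfl⟩
  have hEf0 : 0 < Ef := by rw [hEf]; exact exp_pos _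
  have hEf1 : 1 ≤ Ef := by rw [hEf]; exact ex_one (by linarith) hzr
  obtain ⟨G, hG⟩ : ∃ G : ℝ, G = exp (g * z) := ⟨_, rfl⟩
  have eG : G = Ef * exp ((c + lpc 2) * z) := by
    rw [hG, hEf, hg, ← exp_add]
    ring_nf
  have ecl : c + lpc 2 + 1 ≤ exp ((c + lpc 2) * z) := by
    have h5 := Real.add_one_le_exp ((c + lpc 2) * (z : ℝ))
    have h6 : c + lpc 2 ≤ (c + lpc 2) * z := le_mul_of_one_le_right (by linarith) hzr
    linarith
  have hEG : Ef ≤ G := by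
    rw [eG]
    exact le_mul_of_one_le_right hEf0.le (by linarith)
  have hG1 : 1 ≤ G := hEf1.trans hEG
  have hG0 : 0 ≤ G := by linarith
  have hNG : N ≤ G * N := le_mul_of_one_le_left hN0 hG1
  have hNX : 0 ≤ N / 2 ^ X := by positivity
  -- the error
  have hδ1 : Ef * (δ + (c + lpc 2) * (N / 2 ^ X)) ≤ G * (δ + N / 2 ^ X) := by
    rw [eG, mul_assoc]
    refine mul_le_mul_of_nonneg_left ?_ hEf0.le
    have t1 : δ ≤ exp ((c + lpc 2) * z) * δ := le_mul_of_one_le_left hδ (by linarith)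
    have t2 : (c + lpc 2) * (N / 2 ^ X) ≤ exp ((c + lpc 2) * z) * (N / 2 ^ X) :=
      mul_le_mul_of_nonneg_right (by linarith) hNX
    linarith
  have hδ2 : δ ≤ G * (δ + N / 2 ^ X) := by
    have t1 : δ + N / 2 ^ X ≤ G * (δ + N / 2 ^ X) :=
      le_mul_of_one_le_left (by positivity) hG1
    linarith
  have hrt : ∀ ω, |rt D J w ω| ≤ 1 ∧ |(tq J w X (D.T ω) : ℝ) - 2 ^ X * rt D J w ω| ≤ 1 :=
    fun ω => rt_near (hO.X_zero ω) H.wX5
  refine lab D U R K K' J a₀ w₀ z M w i j r r' y a X Q A lam κ q E P (sl gam n) (gr gam n) S.S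
    ys gs hFx H.enm (hgeo.sh5 gd) haz hj1 H.w1 H.w2 H.wX5 hU ∅ l (G * N) (G * (δ + N / 2 ^ X)) 0
    η' (fun ω => nD (px ω)) (fun ω => nL (Lt D J w i j r ω))
    (fun ω b => Polynomial.C Ef * pol3 fun m => e (Lt D J w i j r ω) m b) (fun _ _ _ => 0)
    (fun _ _ _ => 0) Ev (Finset.notMem_empty _) (hN.trans hNG) (by positivity) le_rfl hη hEE
    (fun ω ω' h1 h2 h3 => by rw [hpx ω ω' h1 h2 h3]) ?_
    (fun ω _ => ⟨(hnD _).1, fun u => ((hnD _).2 u).trans hNG⟩)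
    (fun ω _ => ⟨(hnL _).1, fun u => ((hnL _).2 u).trans hNG⟩) ?_ ?_ ?_ ?_ ?_ ?_ ?_ ?_
  · intro ω ω' hω hω' h
    have hbb := bb_wn hO hiM' hj1.le r ω ω' (hq ω hω) (hq ω' hω') h
    have hw : D.wn J w ω = D.wn J w ω' := by
      simp only [NDat2.wn, Prod.mk.injEq] at h ⊢
      refine ⟨h.1, win_le H.w2 ?_ h.2⟩
      have t1 := hO.thin
      have t2 := hO.top
      have t3 : (j + 1) * z ≤ (M + 1) * z := Nat.mul_le_mul_right z (by omega)
      omega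
    have hLL : Lt D J w i j r ω = Lt D J w i j r ω' := by
      unfold Lt
      rw [hbb, hw]
    rw [hLL]
    exact ⟨rfl, rfl⟩
  · intro ω _ b
    refine ((pol3_pb fun m => he _ m b).mulC hEf0.le).mono le_rfl ?_
    exact mul_le_mul_of_nonneg_right hEG hN0
  · intro ω _ g hg
    exact absurd hg (Finset.notMem_empty _)
  · intro ω _ g hg
    exact absurd hg (Finset.notMem_empty _)
  · intro ω hω
    refine ⟨fun _ => 0, fun _ => by rw [abs_zero]; positivity, fun u => ?_⟩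
    rw [Finset.sum_empty, add_zero]
    refine le_trans (le_of_eq ?_) ((hc3 ω hω u).trans hδ2)
    congr 2
    show _ = ∑ v, nD (px ω) v * MF i j r E (rcd D i j r a) (cMx D J a₀ z i j r a E P gs) ω v u
    refine Finset.sum_congr rfl fun v _ => ?_
    congr 1
    unfold MF
    rw [if_pos (hEE ω hω)]
    rfl
  · intro ω hω b
    refine (dig_gen hEf0 (t := (tq J w X (D.T ω) : ℤ)) (s := fun u => S.S ω (gs u) (ys b))
      (f := nL (Lt D J w i j r ω)) (Sd := fun u =>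
        (Sv (c := c) (k0 := k0) (k1 := k1) D z X C S ys gs ω u b : ℝ) / 2 ^ X)
      (N := N) (p := pol3 fun m => e (Lt D J w i j r ω) m b) (fun u => ?_) (hnL _).2 hN0
      (pol3_pb fun m => he _ m b) ?_ (hrt ω).1 ?_).trans hδ1
    · rw [hEf]
      exact dig_E5 hC0 (H.geo.bS ω (gs u) (ys b))
    · have := (hrt ω).2
      push_cast
      exact this
    · rw [pol3_ev, Int.cast_natCast]
      exact hc4 ω hω b
  · intro ω _ g hg
    exact absurd hg (Finset.notMem_empty _)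
  · intro ω _ g hg
    exact absurd hg (Finset.notMem_empty _)
  · -- the numbers
    have a1 : G * N * (1 / 2 ^ (y * z) + 0) + G * (δ + N / 2 ^ X) =
        G * (N * (1 / 2 ^ (y * z) + 1 / 2 ^ X) + δ) := by ring
    have a2 : exp ((c₀ + g) * z) = exp (c₀ * z) * G := by
      rw [hG, ← exp_add]
      ring_nf
    rw [a2] at hnum
    rw [a1]
    refine le_trans (le_of_eq ?_) hnum
    ring

open Classical in
/-- **The label of a cell**, with the functions `psi3` of the time. -/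
theorem labS5p (n K K' c k0 k1 : ℕ) (C₀ C₁ : ℝ) (hC₀ : 0 ≤ C₀) (hC₁ : 0 ≤ C₁) :
    ∃ F : ℝ, 1 ≤ F ∧ ∀ (C : ℝ) (gam : ℕ → ℝ), F ≤ C → ∃ c' : ℝ, 1 ≤ c' ∧
    ∀ (D : NDat2) (U : GnL D) (R : ℕ → Prop) (J a₀ w₀ z M w i j r r2 r' r'' y a X Q A : ℕ)
      (lam : ℕ → ℝ) (κ : ℝ) (q : D.Ω → ℝ) (E : D.Ω → Prop) (P : D.Γ × D.Γ → ℕ → PN)
      (S : Slo D) (ys : Fin (k0 + k1) → ℕ) (gs : Fin c → ℕ),
      Hyp D n K K' J a₀ w₀ z M w i j r r2 r' r'' y a X lam gam κ C₁ C q E P S ys gs →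
      Geo D n K' J w₀ z i j r r2 r' r'' gam C₀ (exp (C₀ * z) / 2 ^ (y * z)) q E P S →
      (∀ ω, E ω → 0 < q ω ∧ GoodS D n K' w₀ z M C₀ ω ∧
        FrP D n K' z i j r C₀ (P (bb D i j r ω)) ω) →
      U.Ok n K J a₀ w₀ z M Q R C₁ q →
      ∀ {Ξ' : Type} (px : D.Ω → Ξ') (l : Fin c) (N δ η' : ℝ) (nD : Ξ' → Fin c → ℝ)
        (nL : LT D → Fin c → ℝ) (e : LT D → Fin 3 → Fin (k0 + k1) → ℝ) (Ev : D.Ω → Prop),
        1 ≤ N → 0 ≤ δ → (∀ ω ω', Ev ω → Ev ω' → D.pt ω = D.pt ω' → px ω = px ω') →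
        (∀ x, Ld l (nD x) ∧ ∀ u, |nD x u| ≤ N) → (∀ x, Ld l (nL x) ∧ ∀ u, |nL x u| ≤ N) →
        (∀ x j a, |e x j a| ≤ N) → η' ≤ Pb q Ev → (∀ ω, Ev ω → E ω) →
        (∀ ω, Ev ω → ∀ u, |Matrix.vecMul (nD (px ω))
            (MF i j r E (rcd D i j r a) (cMx D J a₀ z i j r a E P gs) ω) u -
            nL (Lt D J w i j r ω) u| ≤ δ) →
        (∀ ω, Ev ω → ∀ b, |∑ u, nL (Lt D J w i j r ω) u *
            ((Sv (c := c) (k0 := k0) (k1 := k1) D z X C S ys gs ω u b : ℝ) / 2 ^ X) -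
          ∑ m, e (Lt D J w i j r ω) m b * psi3 (fun ω => (tq J w X (D.T ω) : ℤ)) X ω m| ≤ δ) →
        exp (c' * z) * (N * (1 / 2 ^ (y * z) + 1 / 2 ^ X) + δ) * 2 ^ (A * z) ≤ 1 →
        j + 1 < M ∧ NewLabT D U J a₀ w₀ z Q R i (j + 1) (gs l) A (kN (max K K') 3) η' q := by
  obtain ⟨F, hF, lab⟩ := labS5 n K K' c k0 k1 C₀ C₁ hC₀ hC₁
  refine ⟨F, hF, fun C gam hFC => ?_⟩
  obtain ⟨c', hc', lab⟩ := lab C gam hFC
  refine ⟨c', hc', ?_⟩
  intro D U R J a₀ w₀ z M w i j r r2 r' r'' y a X Q A lam κ q E P S ys gs H hgeo gd hU Ξ' px l N δ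
    η' nD nL e Ev hN hδ hpx hnD hnL he hη hEE hc3 hc4 hnum
  refine lab D U R J a₀ w₀ z M w i j r r2 r' r'' y a X Q A lam κ q E P S ys gs H hgeo gd hU px l N
    δ η' nD nL e Ev hN hδ hpx hnD hnL he hη hEE hc3 (fun ω hω b => ?_) hnum
  refine le_trans (le_of_eq ?_) (hc4 ω hω b)
  congr 2
  rw [Fin.sum_univ_three]
  unfold psi3
  simp only [Matrix.cons_val_zero, Matrix.cons_val_one, Matrix.cons_val, Int.cast_natCast]
  ring

/-- **The numbers** of `labS5`: sizes `2 ^ (w₁ X)`, errors `2 ^ (- x₂ X)`, `X = B U z`. -/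
theorem num_cell5 (c' w₁ x₂ : ℝ) (A : ℕ) (h₁ : w₁ < 1) (h₂ : 0 < x₂) :
    ∃ U₀ : ℕ, ∀ (B U z y X : ℕ), U₀ ≤ U → 1 ≤ B → 1 ≤ z → X = B * U * z →
      (2 : ℝ) ^ X ≤ 2 ^ (y * z) →
      exp (c' * z) * ((2 : ℝ) ^ (w₁ * X) * (1 / 2 ^ (y * z) + 1 / 2 ^ X) +
        (2 : ℝ) ^ (-(x₂ * X))) * 2 ^ (A * z) ≤ 1 := by
  obtain ⟨U₀, h⟩ := Pool.P4.num_cell c' w₁ x₂ A h₁ h₂
  refine ⟨U₀, fun B U z y X hU hB hz hX hy => ?_⟩
  have h1 := h B U z y X 0 ((2 : ℝ) ^ (-(x₂ * X))) hU hB hz hX hy (by positivity) le_rfl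
  rwa [add_zero] at h1

end Pool.P5
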