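import Pool.Agent.H52.P5.Cel5

/-!
# The label of a cell, slopes polynomial in the time: `lab_cell5`
-/

set_option autoImplicit false

namespace Pool.P5

open Finset Real MvPolynomial
open Pool.Agent.H49.Ent Pool.Agent.H32.Dense Pool.STK Pool.STAT Pool.MIC.Frm Pool.FRM Pool.P4
open Pool.MIC.Fru (gw nat_gw nat_gw0 atT_tri atT_deg)
open Pool.STAT.Glu (kN)
open Pool.LBL (Ld)
open Pool.BFL (Pb)

/-! ### Numbers -/

theorem g5_N {c N G f x y : ℝ} (hN : 0 ≤ N) (hG : 1 ≤ G)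
    (hf : c + 1 ≤ f) (hx : |x| ≤ N) (hy : |y| ≤ c * (N * G)) : |x - y| ≤ f * G * N := by
  have hG0 : 0 ≤ G := by linarith
  have t1 : N ≤ G * N := le_mul_of_one_le_left hN hG
  have t3 : (c + 1) * (G * N) ≤ f * (G * N) := mul_le_mul_of_nonneg_right hf (by positivity)
  calc |x - y| ≤ |x| + |y| := abs_sub _ _
    _ ≤ (c + 1) * (G * N) := by nlinarith
    _ ≤ f * (G * N) := t3
    _ = _ := by ring

open Classical in
/-- **The label of a cell**, slopes polynomial in the time. `l` is the leading coordinate, `Fz` the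
coordinates of the group with known covectors `fL`. -/
theorem lab_cell5 (n K c k d : ℕ) (C₀ C₁ : ℝ) (hC₀ : 0 ≤ C₀) (hC₁ : 0 ≤ C₁) :
    ∃ F : ℝ, 1 ≤ F ∧ ∀ (C₂ : ℝ) (gam : ℕ → ℝ), 0 ≤ C₂ → (∀ l, 0 ≤ gam l) → ∃ c' : ℝ, 1 ≤ c' ∧
    ∀ (D : NDat2) (U : GnL D) (R : ℕ → Prop) (K₁ K' J a₀ w₀ z M w i j r r' y a X Q A : ℕ)
      (lam : ℕ → ℝ) (κ : ℝ) (q : D.Ω → ℝ) (E : D.Ω → Prop) (P : D.Γ × D.Γ → ℕ → PN)
      (Sl Gr : ℕ → Prop) (S : D.Ω → ℕ → ℕ → ℝ) (ys : Fin k → ℕ) (gs : Fin c → ℕ),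
      Fx D n K K₁ K' J a₀ w₀ z M i j r r' a y lam gam κ C₁ C₀ q E P Sl Gr →
      Enm Sl Gr ys gs → Sh5 D n z i j r r' y C₀ E P Sl Gr S →
      exp (F * z) ≤ 2 ^ (a * z) → j + 1 < M → w₀ + j * z ≤ w → w ≤ w₀ + (j + 1) * z →
      w + X ≤ J → U.Ok n K₁ J a₀ w₀ z M Q R C₁ q →
      ∀ (Fz : Finset (Fin c)) (l : Fin c) (N δ ε η' : ℝ) (nD nL : D.Ω → Fin c → ℝ)
        (ep : D.Ω → Fin k → Polynomial ℝ) (fL : D.Ω → Fin c → Fin c → ℝ)
        (fp : D.Ω → Fin c → Fin k → Polynomial ℝ) (Ev : D.Ω → Prop), l ∉ Fz → 1 ≤ N → 0 ≤ δ →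
        0 ≤ ε → η' ≤ Pb q Ev → (∀ ω, Ev ω → E ω) →
        (∀ ω ω', Ev ω → Ev ω' → D.pt ω = D.pt ω' → nD ω = nD ω') →
        (∀ ω ω', Ev ω → Ev ω' → D.wn J (w₀ + (j + 1) * z) ω = D.wn J (w₀ + (j + 1) * z) ω' →
          nL ω = nL ω' ∧ ep ω = ep ω') →
        (∀ ω, Ev ω → Ld l (nD ω) ∧ ∀ u, |nD ω u| ≤ N) →
        (∀ ω, Ev ω → Ld l (nL ω) ∧ ∀ u, |nL ω u| ≤ N) →
        (∀ ω, Ev ω → ∀ a, PB d N (ep ω a)) →
        (∀ ω, Ev ω → ∀ g ∈ Fz, Ld g (fL ω g) ∧ ∀ u, |fL ω g u| ≤ exp (C₂ * z)) →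
        (∀ ω, Ev ω → ∀ g ∈ Fz, ∀ a, PB d (exp (C₂ * z)) (fp ω g a) ∧
          (gs g < ys a → fp ω g a = 0)) →
        (∀ ω, Ev ω → ∃ rr : Fin c → ℝ, (∀ g, |rr g| ≤ N) ∧ ∀ u,
          |∑ v, nD ω v * cM D J a₀ z i j r a E P (bb D i j r ω) (rcd D i j r a ω) (gs v) (gs u) -
            nL ω u + ∑ g ∈ Fz, rr g * fL ω g u| ≤ δ) →
        (∀ ω, Ev ω → ∀ a, |∑ u, nL ω u * S ω (gs u) (ys a) - (ep ω a).eval (rt D J w ω)| ≤ δ) →
        (∀ ω, Ev ω → ∀ g ∈ Fz, ∀ a, |∑ u, fL ω g u * S ω (gs u) (ys a) -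
          (fp ω g a).eval (rt D J w ω)| ≤ ε) →
        (∀ ω, Ev ω → ∀ g ∈ Fz, gs g < gs l → ∀ b : ℕ → ℝ,
          NBT D U z Q R i (j + 1) (a₀ + i * z) (gs l) ω b →
          |∑ u, fL ω g u * (nat (D.g i j) (P (bb D i j r ω)) b (gs u) - ze D i j r P ω (gs u)) -
            ∑ a, (fp ω g a).eval (rt D J w ω) *
              (nat (D.g i j) (P (bb D i j r ω)) b (ys a) - ze D i j r P ω (ys a))| ≤ ε) →
        exp (c' * z) * (N * (1 / 2 ^ (y * z) + ε) + δ) * 2 ^ (A * z) ≤ 1 →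
        NewLabT D U J a₀ w₀ z Q R i (j + 1) (gs l) A (kN K (d + 1)) η' q := by
  obtain ⟨c₂, h2, nb⟩ := nbt_box n K C₀ C₁ hC₀ hC₁
  obtain ⟨c₁, h1, cs⟩ := cons5 n K d C₀ C₁ c₂ hC₀ hC₁ h2
  refine ⟨c₁, h1, ?_⟩
  intro C₂ gam hC₂ hgam
  have hc0 : (0 : ℝ) ≤ c := Nat.cast_nonneg c
  have hk0 : (0 : ℝ) ≤ k := Nat.cast_nonneg k
  have hd0 : (0 : ℝ) ≤ d := Nat.cast_nonneg d
  obtain ⟨d₁, hd₁⟩ : ∃ d₁ : ℝ, d₁ = c + C₂ + (d + 1) := ⟨_, rfl⟩
  obtain ⟨d₂, hd₂⟩ : ∃ d₂ : ℝ, d₂ = c + c * (c + C₂) + C₂ := ⟨_, rfl⟩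
  obtain ⟨d₃, hd₃⟩ : ∃ d₃ : ℝ, d₃ = c + k + C₀ := ⟨_, rfl⟩
  obtain ⟨gm, hgm⟩ : ∃ gm : ℝ, gm = ∑ l ∈ range (n + 1), |gam l| := ⟨_, rfl⟩
  have d10 : 0 ≤ d₁ := by rw [hd₁]; positivity
  have d20 : 0 ≤ d₂ := by rw [hd₂]; positivity
  have d30 : 0 ≤ d₃ := by rw [hd₃]; positivity
  have gm0 : 0 ≤ gm := by rw [hgm]; positivity
  refine ⟨d₁ + d₂ + d₃ + c₁ + 9 + gm + 2 * C₁, by linarith, ?_⟩
  intro D U R K₁ K' J a₀ w₀ z M w i j r r' y a X Q A lam κ q E P Sl Gr S ys gs hF H hS hFz1 hj1 hw1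
    hw2 hwX hU Fz l N δ ε η' nD nL ep fL fp Ev hlF hN hδ hε hη hEE hptD hwnL hnD hnL hep hfL hfp hc3
    hc4 haf hbx hnum
  have hO := hF.ok
  have hd := hF.dic
  have hzr : (1 : ℝ) ≤ z := by exact_mod_cast hF.z1
  have hN0 : 0 ≤ N := by linarith
  have hy0 : (0 : ℝ) < 2 ^ (y * z) := by positivity
  have hiM : i < M := hF.iM
  have hm := hd.g1 _ (H.gs1 l)
  have hq : ∀ ω, E ω → 0 < q ω := fun ω h => (hF.fr ω h).1
  have hρ : (2 : ℝ) ^ w / 2 ^ (a₀ + i * z) ≤ 1 / 2 ^ (y * z) := by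
    rw [div_le_div_iff₀ (by positivity) hy0, ← pow_add, one_mul]
    refine pow_le_pow_right₀ (by norm_num) ?_
    have t1 := hO.thin
    have t3 : (j + 1) * z ≤ (M + 1) * z := Nat.mul_le_mul_right z (by omega)
    have t4 : y * z ≤ i * z := Nat.mul_le_mul_right z (hF.ya.trans hF.ai)
    omega
  have hρ1 : (1 : ℝ) / 2 ^ (y * z) ≤ 1 := by
    rw [div_le_one hy0]
    exact one_le_pow₀ (by norm_num)
  -- the data
  choose! rr hrN hr3 using hc3
  obtain ⟨G, hG⟩ : ∃ G : ℝ, G = exp (C₂ * z) := ⟨_, rfl⟩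
  have hG1 : 1 ≤ G := by rw [hG]; exact ex_one hC₂ hzr
  have hG0 : 0 ≤ G := by linarith
  rw [← hG] at hfL hfp
  obtain ⟨F, hFd⟩ : ∃ F : Finset (Fin c), F = Fz.filter (fun g => g < l) := ⟨_, rfl⟩
  have hFz : ∀ g ∈ F, g ∈ Fz ∧ g < l := fun g hg => by
    rw [hFd, mem_filter] at hg
    exact hg
  have hfF : ∀ ω, Ev ω → ∀ g ∈ F, ∀ u, l < u → fL ω g u = 0 := fun ω hω g hg u hu =>
    (hfL ω hω g (hFz g hg).1).1.2 u ((hFz g hg).2.trans hu)
  have eC0 : 1 ≤ exp (C₀ * z) := ex_one hC₀ hzr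
  have ecc := ex_c c hzr
  have eck := ex_c k hzr
  have ecd : (d : ℝ) + 1 ≤ exp ((d + 1) * z) := by
    have h5 := Real.add_one_le_exp (((d : ℝ) + 1) * z)
    have h6 : (d : ℝ) + 1 ≤ (d + 1) * z := le_mul_of_one_le_right (by positivity) hzr
    linarith
  -- the functions
  obtain ⟨nDf, hnDf⟩ : ∃ f : D.Ω → ℕ → ℝ, f = fun ω => ug gs (nD ω) := ⟨_, rfl⟩
  obtain ⟨nv, hnv⟩ : ∃ f : D.Ω → ℕ → ℝ, f = fun ω => ug gs (nL ω) := ⟨_, rfl⟩
  obtain ⟨eN, heN⟩ : ∃ f : D.Ω → ℕ → Polynomial ℝ, f = fun ω => Function.extend ys (ep ω) 0 :=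
    ⟨_, rfl⟩
  obtain ⟨nvt, hnvt⟩ : ∃ f : D.Ω → ℕ → ℝ, f = fun ω =>
    ug gs (fun u => nL ω u - ∑ g ∈ F, rr ω g * fL ω g u) := ⟨_, rfl⟩
  obtain ⟨e0t, he0t⟩ : ∃ f : D.Ω → ℕ → ℝ, f = fun ω =>
    ug ys (fun a => (ep ω a).eval (rt D J w ω) -
      ∑ g ∈ F, rr ω g * (fp ω g a).eval (rt D J w ω)) := ⟨_, rfl⟩
  have het : ∀ ω, et D w (t0 D J w) eN ω = ug ys (fun a => (ep ω a).eval (rt D J w ω)) := by
    intro ω
    funext u
    unfold et ev5
    rw [heN]
    simp only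
    by_cases hu : ∃ a, ys a = u
    · obtain ⟨a', rfl⟩ := hu
      rw [H.ysi.extend_apply, ug_gs H.ysi]
      rfl
    · unfold ug
      rw [Function.extend_apply' _ _ _ hu, Function.extend_apply' _ _ _ hu, Pi.zero_apply,
        Pi.zero_apply, Polynomial.eval_zero]
  -- the numbers
  obtain ⟨N₀, hN₀⟩ : ∃ N₀ : ℝ, N₀ = exp (d₁ * z) * N := ⟨_, rfl⟩
  obtain ⟨δ₀, hδ₀⟩ : ∃ δ₀ : ℝ, δ₀ = exp (d₂ * z) * (δ + N * ε) := ⟨_, rfl⟩
  obtain ⟨δT, hδT⟩ : ∃ δT : ℝ, δT = exp (d₃ * z) * (N * ε) := ⟨_, rfl⟩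
  have hδ₀0 : 0 ≤ δ₀ := by rw [hδ₀]; positivity
  have hδT0 : 0 ≤ δT := by rw [hδT]; positivity
  have ed1 : exp (d₁ * z) = exp (c * z) * G * exp ((d + 1) * z) := by
    rw [hd₁, hG, ← exp_add, ← exp_add]
    ring_nf
  have hNN₀ : N ≤ N₀ := by
    rw [hN₀]
    exact le_mul_of_one_le_left hN0 (ex_one d10 hzr)
  have hdN : (d + 1) * N ≤ exp ((d + 1) * z) * N := mul_le_mul_of_nonneg_right ecd hN0
  have hdN₀ : (d + 1) * N ≤ N₀ := by
    refine hdN.trans ?_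
    rw [hN₀]
    refine mul_le_mul_of_nonneg_right (ex_mono ?_ hzr) hN0
    rw [hd₁]
    linarith
  have hbN : ∀ x y : ℝ, |x| ≤ N → |y| ≤ c * (N * G) → |x - y| ≤ N₀ := by
    intro x y hx hy
    have := g5_N hN0 hG1 ecc hx hy
    refine this.trans ?_
    rw [hN₀, ed1]
    have e1 : 1 ≤ exp (((d : ℝ) + 1) * z) := ex_one (by positivity) hzr
    have e2 : 0 ≤ exp (c * z) * G * N := by positivity
    calc exp (c * z) * G * N ≤ exp (((d : ℝ) + 1) * z) * (exp (c * z) * G * N) :=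
          le_mul_of_one_le_left e2 e1
      _ = _ := by ring
  have hbE : ∀ x y : ℝ, |x| ≤ (d + 1) * N → |y| ≤ c * (N * ((d + 1) * G)) → |x - y| ≤ N₀ := by
    intro x y hx hy
    have h3 : |x - y| ≤ exp (c * z) * G * ((d + 1) * N) := by
      refine g5_N (by positivity) hG1 ecc hx (hy.trans (le_of_eq ?_))
      ring
    refine h3.trans ?_
    rw [hN₀, ed1]
    have e2 : 0 ≤ exp (c * z) * G := by positivity
    calc exp (c * z) * G * ((d + 1) * N) ≤ exp (c * z) * G * (exp ((d + 1) * z) * N) :=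
          mul_le_mul_of_nonneg_left hdN e2
      _ = _ := by ring
  have hsum : ∀ ω, Ev ω → ∀ (B : ℝ) (x : Fin c → ℝ), 0 ≤ B → (∀ g ∈ F, |x g| ≤ B) →
      |∑ g ∈ F, rr ω g * x g| ≤ c * (N * B) := by
    intro ω hω B x hB hx
    refine sum_le_c (by positivity) fun g hg => ?_
    rw [abs_mul]
    exact mul_le_mul (hrN ω hω g) (hx g hg) (abs_nonneg _) hN0
  have gsi := H.gsi.injective
  -- the time
  have hrt : ∀ ω, |rt D J w ω| ≤ 1 := fun ω => (rt_near (hO.X_zero ω) hwX).1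
  have hδa : δ + c * (N * ε) ≤ δ₀ := by
    rw [hδ₀]
    have t1 : 1 ≤ exp (d₂ * z) := ex_one d20 hzr
    have t2 : (c : ℝ) ≤ exp (d₂ * z) := by
      have : exp (c * z) ≤ exp (d₂ * z) := ex_mono (by
        rw [hd₂]
        have : 0 ≤ c * (c + C₂) := by positivity
        linarith) hzr
      linarith
    have t3 := mul_le_mul_of_nonneg_right t1 hδ
    have t4 := mul_le_mul_of_nonneg_right t2 (show 0 ≤ N * ε by positivity)
    linarith
  have hδb : δ ≤ δ₀ := by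
    have : 0 ≤ c * (N * ε) := by positivity
    linarith
  have hδc : δ + c * ((1 + c * G) ^ c * δ * G) ≤ δ₀ := by
    have t5 : δ + c * ((1 + c * G) ^ c * δ * G) ≤ exp (d₂ * z) * δ := by
      rw [hG]
      exact gl_d hzr hC₂ hδ (by rw [hd₂])
    refine t5.trans ?_
    rw [hδ₀]
    refine mul_le_mul_of_nonneg_left ?_ (exp_pos _).le
    have : 0 ≤ N * ε := by positivity
    linarith
  -- the samples
  have hCvt : ∀ ω, Ev ω → Cvt D n J a₀ z i j r r' a y (gs l) w C₀ N₀ δ₀ E P Sl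
      Gr (nn5 D n i j r Sl P S) S (t0 D J w) nDf nvt e0t (zr D) ω := by
    intro ω hω
    have hEω := hEE ω hω
    refine
      { mem := hEω
        tS := hS.tS ω hEω
        sheet := hS.sheet ω hEω
        bn := ?_
        bv := ?_
        b0 := ?_
        b1 := ?_
        tm := hrt ω
        c3 := ?_
        c4 := ?_ }
    · intro v
      rw [hnDf]
      exact ug_bd gsi (hN0.trans hNN₀) (fun u => ((hnD ω hω).2 u).trans hNN₀) v
    · intro v
      rw [hnvt]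
      refine ug_bd gsi (hN0.trans hNN₀) (fun u => hbN _ _ ?_ ?_) v
      · exact (hnL ω hω).2 u
      · exact hsum ω hω G _ hG0 fun g hg => (hfL ω hω g (hFz g hg).1).2 u
    · intro v
      rw [he0t]
      refine ug_bd H.ysi (hN0.trans hNN₀) (fun u => hbE _ _ ?_ ?_) v
      · exact (hep ω hω u).bd (hrt ω)
      · exact hsum ω hω ((d + 1) * G) _ (by positivity) fun g hg =>
          (hfp ω hω g (hFz g hg).1 u).1.bd (hrt ω)
    · intro v
      unfold zr
      rw [abs_zero]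
      exact hN0.trans hNN₀
    · intro u hu hul
      obtain ⟨v, rfl⟩ := H.gso u hu
      rw [hnDf, hnvt]
      simp only
      rw [H.sum_ug (l := l) (fun i hi => (hnD ω hω).1.2 i hi) fun v' =>
        cM D J a₀ z i j r a E P (bb D i j r ω) (rcd D i j r a ω) v' (gs v), ug_gs gsi]
      have k1 := cut_sum (l := l) (r := rr ω) (f := fL ω) (v := fun u =>
        ∑ v, nD ω v * cM D J a₀ z i j r a E P (bb D i j r ω) (rcd D i j r a ω) (gs v) (gs u) -
          nL ω u) hG0 hδ hlF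
        (fun g hg => hfL ω hω g hg) (fun u hu => by
          rw [(hnL ω hω).1.2 u hu, sub_zero]
          refine Finset.sum_eq_zero fun v' _ => ?_
          rcases le_or_gt v' l with h3 | h3
          · rw [H.cM_zero hF hEω (h3.trans hu.le), if_neg (by
              intro h4
              rw [h4] at h3
              exact absurd hu (not_lt.2 h3)), mul_zero]
          · rw [(hnD ω hω).1.2 v' h3, zero_mul]) (hr3 ω hω) v
      rw [← hFd] at k1
      refine le_trans (le_of_eq ?_) (k1.trans hδc)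
      congr 1
      ring
    · intro k' hk' hk'l
      obtain ⟨a', rfl⟩ := H.yso k' hk'
      rw [hnvt, he0t]
      unfold zr
      simp only
      rw [zero_mul, add_zero, H.sum_ug (l := l)
        (f := fun u => nL ω u - ∑ g ∈ F, rr ω g * fL ω g u)
        (fun u hu => by
          rw [(hnL ω hω).1.2 u hu, Finset.sum_eq_zero fun g hg => by
            rw [hfF ω hω g hg u hu, mul_zero], sub_zero]) fun u => S ω u (ys a'), ug_gs H.ysi,
        lin_split]
      have k1 := hc4 ω hω a'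
      have k2 : |∑ g ∈ F, rr ω g * (∑ u, fL ω g u * S ω (gs u) (ys a') -
          (fp ω g a').eval (rt D J w ω))| ≤ c * (N * ε) := by
        refine sum_le_c (by positivity) fun g hg => ?_
        rw [abs_mul]
        exact mul_le_mul (hrN ω hω g) (haf ω hω g (hFz g hg).1 a') (abs_nonneg _) hN0
      have e3 : ∑ u, nL ω u * S ω (gs u) (ys a') -
          ∑ g ∈ F, rr ω g * ∑ u, fL ω g u * S ω (gs u) (ys a') -
          ((ep ω a').eval (rt D J w ω) - ∑ g ∈ F, rr ω g * (fp ω g a').eval (rt D J w ω)) =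
          (∑ u, nL ω u * S ω (gs u) (ys a') - (ep ω a').eval (rt D J w ω)) -
          ∑ g ∈ F, rr ω g * (∑ u, fL ω g u * S ω (gs u) (ys a') -
            (fp ω g a').eval (rt D J w ω)) := by
        have e4 : ∑ g ∈ F, rr ω g * (∑ u, fL ω g u * S ω (gs u) (ys a') -
            (fp ω g a').eval (rt D J w ω)) =
            ∑ g ∈ F, rr ω g * ∑ u, fL ω g u * S ω (gs u) (ys a') -
            ∑ g ∈ F, rr ω g * (fp ω g a').eval (rt D J w ω) := by
          rw [← Finset.sum_sub_distrib]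
          exact Finset.sum_congr rfl fun g _ => by ring
        rw [e4]
        ring
      rw [e3]
      exact (abs_sub _ _).trans ((add_le_add k1 k2).trans hδa)
  have hCv4 : ∀ ω, Ev ω → Cv4 D n z i j r r' y (gs l) w C₀ N₀ δ₀ E P Sl Gr
      (nn5 D n i j r Sl P S) S (t0 D J w) nv (et D w (t0 D J w) eN) (zr D) ω := by
    intro ω hω
    have hEω := hEE ω hω
    refine
      { mem := hEω
        tS := hS.tS ω hEω
        sheet := hS.sheet ω hEω
        bv := ?_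
        b0 := ?_
        b1 := ?_
        c4 := ?_ }
    · intro v
      rw [hnv]
      exact ug_bd gsi (hN0.trans hNN₀) (fun u => ((hnL ω hω).2 u).trans hNN₀) v
    · intro v
      rw [het ω]
      exact ug_bd H.ysi (hN0.trans hNN₀) (fun u => ((hep ω hω u).bd (hrt ω)).trans hdN₀) v
    · intro v
      unfold zr
      rw [abs_zero]
      exact hN0.trans hNN₀
    · intro k' hk' hk'l
      obtain ⟨a', rfl⟩ := H.yso k' hk'
      rw [het ω, hnv]
      unfold zr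
      simp only
      rw [zero_mul, add_zero, H.sum_ug (l := l) (f := nL ω) (fun u hu => (hnL ω hω).1.2 u hu)
        fun u => S ω u (ys a'), ug_gs H.ysi]
      exact (hc4 ω hω a').trans hδb
  -- the thin box
  have hthin : ∀ ω, Ev ω → ∀ b, NBT D U z Q R i (j + 1) (a₀ + i * z) (gs l) ω b →
      |LM D i j r P Sl Gr (gs l) w (nn5 D n i j r Sl P S) (t0 D J w) nvt e0t (zr D) ω b -
        LM D i j r P Sl Gr (gs l) w (nn5 D n i j r Sl P S) (t0 D J w) nv
          (et D w (t0 D J w) eN) (zr D) ω b| ≤ δT := by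
    intro ω hω b hb
    have hEω := hEE ω hω
    have hbox := nb D K₁ K' J a₀ w₀ z M i j r r' a y lam gam κ q E P Sl Gr hF hj1
      hgam U R Q hU ω hEω (gs l) hm.2 b hb
    rw [H.dif_LM hd (l := l) (F := F) (v := nL ω) (f := fL ω) (rr := rr ω)
      (g0 := fun a => (ep ω a).eval (rt D J w ω)) (p0 := fun g a => (fp ω g a).eval (rt D J w ω))
      (fun u hu => (hnL ω hω).1.2 u hu) (hfF ω hω) (by rw [hnv]) (het ω)
      (by rw [hnvt]) (by rw [he0t]) b, abs_neg]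
    have k1 : |∑ g ∈ F, rr ω g * (∑ u, fL ω g u *
        (nat (D.g i j) (P (bb D i j r ω)) b (gs u) - (ze D i j r P ω (gs u) -
          ∑ a, S ω (gs u) (ys a) * ze D i j r P ω (ys a))) -
        ∑ a ∈ univ.filter (fun a => ys a < gs l), (fp ω g a).eval (rt D J w ω) *
          nat (D.g i j) (P (bb D i j r ω)) b (ys a))| ≤
        c * (N * (ε + k * (ε * exp (C₀ * z)) + k * (G * 0 * exp (c₂ * z)))) := by
      refine sum_le_c (by positivity) fun g hgF => ?_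
      rw [abs_mul]
      have hgl : gs g < gs l := H.gsi (hFz g hgF).2
      refine mul_le_mul (hrN ω hω g) ?_ (abs_nonneg _) hN0
      have br := brk_bd (A := univ.filter (fun a => ys a < gs l)) (f := fL ω g)
        (s := fun u a => S ω (gs u) (ys a)) (P0 := fun a => (fp ω g a).eval (rt D J w ω))
        (P1 := fun _ => 0)
        (xb := fun u => nat (D.g i j) (P (bb D i j r ω)) b (gs u))
        (xe := fun u => ze D i j r P ω (gs u))
        (yb := fun a => nat (D.g i j) (P (bb D i j r ω)) b (ys a))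
        (ye := fun a => ze D i j r P ω (ys a)) (t := 0) (tb := 0) (ρ := 0) (ε := ε) (G := G)
        (B := exp (c₂ * z)) (B₀ := exp (C₀ * z)) hε (exp_pos _).le hG0 (exp_pos _).le
        le_rfl ?_ ?_ ?_ ?_ ?_ ?_ ?_
      · simpa only [zero_mul, add_zero] using br
      · intro a' ha'
        rw [mem_filter] at ha'
        push Not at ha'
        have := ha' (mem_univ _)
        refine ⟨?_, rfl⟩
        rw [(hfp ω hω g (hFz g hgF).1 a').2 (by omega), Polynomial.eval_zero]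
      · intro a'
        rw [abs_zero]
        exact hG0
      · intro a' ha'
        rw [mem_filter] at ha'
        exact hbox (ys a') ha'.2
      · intro a'
        have := hd.s1 _ (H.ys1 a')
        exact hF.bz ω hEω (ys a') this.1 this.2.le
      · rw [sub_self, abs_zero]
      · intro a'
        rw [zero_mul, add_zero]
        exact haf ω hω g (hFz g hgF).1 a'
      · have := hbx ω hω g (hFz g hgF).1 hgl b hb
        simpa only [zero_mul, add_zero] using this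
    refine k1.trans ?_
    rw [hδT]
    have s1 : ε + k * (ε * exp (C₀ * z)) + k * (G * 0 * exp (c₂ * z)) ≤
        (k + 1) * (exp (C₀ * z) * ε) := by
      have a1 : ε ≤ exp (C₀ * z) * ε := le_mul_of_one_le_left hε eC0
      have a2 : k * (ε * exp (C₀ * z)) = k * (exp (C₀ * z) * ε) := by ring
      rw [a2]
      linarith
    have s2 : (k + 1) * (exp (C₀ * z) * ε) ≤ exp (k * z) * (exp (C₀ * z) * ε) :=
      mul_le_mul_of_nonneg_right eck (by positivity)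
    have s3 : exp (d₃ * z) = exp (c * z) * (exp (k * z) * exp (C₀ * z)) := by
      rw [hd₃, ← exp_add, ← exp_add]
      ring_nf
    have s4 : (c : ℝ) ≤ exp (c * z) := by linarith
    rw [s3]
    have s5 : 0 ≤ N * (exp (k * z) * (exp (C₀ * z) * ε)) := by positivity
    calc _ ≤ c * (N * (exp (k * z) * (exp (C₀ * z) * ε))) :=
          mul_le_mul_of_nonneg_left (mul_le_mul_of_nonneg_left (s1.trans s2) hN0) hc0
      _ ≤ exp (c * z) * (N * (exp (k * z) * (exp (C₀ * z) * ε))) :=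
          mul_le_mul_of_nonneg_right s4 s5
      _ = _ := by ring
  -- the conclusion
  have hiM' : i ≤ M := hiM.le
  have hjM : j + 1 ≤ M := hj1.le
  refine cs D K₁ K' J a₀ w₀ z M i j r r' a y lam gam κ q E P Sl Gr hF hFz1 hj1
    (gs l) w A N₀ δ₀ (1 / 2 ^ (y * z)) δT η' (nn5 D n i j r Sl P S) S (t0 D J w) nDf nvt
    e0t nv eN Ev (fun ω b => NBT D U z Q R i (j + 1) (a₀ + i * z) (gs l) ω b) hm.2
    (H.gs1 l) hw1 hδ₀0 hδT0 (hN.trans hNN₀) hρ hρ1 hη hCvt hCv4 ?_ ?_ ?_ ?_ ?_ ?_ ?_ ?_ hthin ?_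
  · intro ω hω k'
    rw [heN]
    simp only
    by_cases hu : ∃ a, ys a = k'
    · obtain ⟨a', rfl⟩ := hu
      rw [H.ysi.extend_apply]
      exact (hep ω hω a').mono le_rfl hNN₀
    · rw [Function.extend_apply' _ _ _ hu, Pi.zero_apply]
      refine ⟨by simp, fun i => ?_⟩
      rw [Polynomial.coeff_zero, abs_zero]
      exact hN0.trans hNN₀
  · intro ω hω
    rw [hnv]
    simp only
    rw [ug_gs gsi]
    exact (hnL ω hω).1.1
  · intro ω ω' hω hω' h
    rw [hnDf]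
    simp only
    rw [hptD ω ω' hω hω' h]
  · intro ω ω' hω hω' h
    have hw : D.wn J w ω = D.wn J w ω' := by
      simp only [NDat2.wn, Prod.mk.injEq] at h ⊢
      refine ⟨h.1, win_le hw2 ?_ h.2⟩
      have t1 := hO.thin
      have t2 := hO.top
      have t3 : (j + 1) * z ≤ (M + 1) * z := Nat.mul_le_mul_right z (by omega)
      omega
    have hT : D.T ω / 2 ^ (J - w) = D.T ω' / 2 ^ (J - w) := (Prod.ext_iff.1 hw).2
    obtain ⟨f1, f2⟩ := hwnL ω ω' hω hω' h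
    rw [hnv, heN]
    simp only
    refine ⟨?_, by rw [f1], by rw [f2]⟩
    unfold t0
    rw [hT]
  · intro ω hω
    exact nbt_X hO hU hiM' hjM hm.2 (hq ω (hEE ω hω))
  · intro ω b hω hb
    exact ⟨hb.1, nb D K₁ K' J a₀ w₀ z M i j r r' a y lam gam κ q E P Sl Gr hF hj1
      hgam U R Q hU ω (hEE ω hω) (gs l) hm.2 b hb⟩
  · intro ω b t hω hb
    exact nbt_up hO hU hm.1 hb t
  · intro ω ω' hω hω' h b hb
    exact nbt_pt hO hiM' hjM (hq ω (hEE ω hω)) (hq ω' (hEE ω' hω')) h hb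
  · -- the numbers
    obtain ⟨W, hW⟩ : ∃ W : ℝ, W = N * (1 / 2 ^ (y * z) + ε) + δ := ⟨_, rfl⟩
    have hW0 : 0 ≤ W := by rw [hW]; positivity
    rw [← hW] at hnum
    have hNy : 0 ≤ N * (1 / 2 ^ (y * z)) := by positivity
    have hNe : 0 ≤ N * ε := by positivity
    have a1 : δT ≤ exp (d₃ * z) * W := by
      rw [hδT]
      refine mul_le_mul_of_nonneg_left ?_ (exp_pos _).le
      rw [hW]
      nlinarith
    have a2 : N₀ * (1 / 2 ^ (y * z) + 1 / 2 ^ (y * z)) ≤ 2 * exp (d₁ * z) * W := by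
      have : N * (1 / 2 ^ (y * z)) ≤ W := by
        rw [hW]
        nlinarith
      have b1 := mul_le_mul_of_nonneg_left this (exp_pos (d₁ * z)).le
      rw [hN₀]
      linarith
    have a3 : δ₀ ≤ exp (d₂ * z) * W := by
      rw [hδ₀]
      refine mul_le_mul_of_nonneg_left ?_ (exp_pos _).le
      rw [hW]
      nlinarith
    have a4 : 2 * (2 * δT + exp (c₁ * z) * (N₀ * (1 / 2 ^ (y * z) + 1 / 2 ^ (y * z)) + δ₀)) ≤
        exp ((d₁ + d₂ + d₃ + c₁ + 9) * z) * W := by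
      have e2 : exp ((d₁ + d₂ + d₃ + c₁ + 9) * z) =
          exp (d₁ * z) * exp (d₂ * z) * exp (d₃ * z) * exp (c₁ * z) * exp (9 * z) := by
        rw [← exp_add, ← exp_add, ← exp_add, ← exp_add]
        ring_nf
      rw [e2]
      exact gl_f hW0 (ex_one d10 hzr) (ex_one d20 hzr) (ex_one d30 hzr)
        (ex_one (by linarith) hzr) (by
          have := Real.add_one_le_exp (9 * (z : ℝ))
          linarith) a1 a2 a3
    have a5 := g_next hO hC₁ (i := i) (j := j) hiM' hjM hm.1 hm.2 (hgam _)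
    have a6 : exp ((gam (gs l) + 2 * C₁) * z) ≤ exp ((gm + 2 * C₁) * z) := by
      refine ex_mono ?_ hzr
      have : |gam (gs l)| ≤ gm := by
        rw [hgm]
        exact Finset.single_le_sum (f := fun l => |gam l|) (fun _ _ => abs_nonneg _)
          (mem_range.2 (by omega))
      have := le_abs_self (gam (gs l))
      linarith
    have h2g : (0 : ℝ) < 2 ^ D.g i j (gs l) := by positivity
    have a7 : (2 : ℝ) ^ (D.g i (j + 1) (gs l) + A * z) ≤
        2 ^ D.g i j (gs l) * exp ((gm + 2 * C₁) * z) * 2 ^ (A * z) := by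
      rw [pow_add]
      refine mul_le_mul_of_nonneg_right (a5.trans ?_) (by positivity)
      exact mul_le_mul_of_nonneg_left a6 h2g.le
    have a8 : 0 ≤ 2 * (2 * δT + exp (c₁ * z) * (N₀ * (1 / 2 ^ (y * z) + 1 / 2 ^ (y * z)) +
        δ₀)) := by
      have : 0 ≤ N₀ := hN0.trans hNN₀
      positivity
    refine (mul_le_mul a4 a7 (by positivity) (by positivity)).trans ?_
    have e3 : exp ((d₁ + d₂ + d₃ + c₁ + 9 + gm + 2 * C₁) * z) =
        exp ((d₁ + d₂ + d₃ + c₁ + 9) * z) * exp ((gm + 2 * C₁) * z) := by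
      rw [← exp_add]
      ring_nf
    rw [e3] at hnum
    calc _ = 2 ^ D.g i j (gs l) * (exp ((d₁ + d₂ + d₃ + c₁ + 9) * z) *
          exp ((gm + 2 * C₁) * z) * W * 2 ^ (A * z)) := by ring
      _ ≤ 2 ^ D.g i j (gs l) * 1 := mul_le_mul_of_nonneg_left hnum h2g.le
      _ = _ := mul_one _

end Pool.P5
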