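import Pool.Agent.H52.P5.Con5
import Pool.Agent.H52.P4.Glue

/-!
# The label of a cell, slopes polynomial in the time

Abstract slow coordinates and group, abstract data: `lab_cell5`.
-/

set_option autoImplicit false

namespace Pool.P5

open Finset Real MvPolynomial
open Pool.Agent.H49.Ent Pool.Agent.H32.Dense Pool.STK Pool.STAT Pool.MIC.Frm Pool.FRM Pool.P4
open Pool.MIC.Fru (gw nat_gw nat_gw0 atT_tri atT_deg)
open Pool.STAT.Glu (kN)
open Pool.LBL (Ld)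
open Pool.BFL (Pb)

/-- The enumeration of the slow coordinates and of the group. -/
structure Enm {c k : ℕ} (Sl Gr : ℕ → Prop) (ys : Fin k → ℕ) (gs : Fin c → ℕ) : Prop where
  ysi : Function.Injective ys
  gsi : StrictMono gs
  ys1 : ∀ a, Sl (ys a)
  gs1 : ∀ u, Gr (gs u)
  yso : ∀ l, Sl l → ∃ a, ys a = l
  gso : ∀ l, Gr l → ∃ u, gs u = l

open Classical in
/-- The height over the own sheet with the slopes `S`. -/
noncomputable def nn5 (D : NDat2) (n i j r : ℕ) (Sl : ℕ → Prop) (P : D.Γ × D.Γ → ℕ → PN)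
    (S : D.Ω → ℕ → ℕ → ℝ) (ω : D.Ω) (u : ℕ) : ℝ :=
  ze D i j r P ω u - ∑ k ∈ (range n).filter Sl, S ω u k * ze D i j r P ω k

open Classical in
/-- The own sheet at `R = (i - r', j + r)`, at the exact time, is affine over the slow
coordinates. -/
structure Sh5 (D : NDat2) (n z i j r r' y : ℕ) (C : ℝ) (E : D.Ω → Prop)
    (P : D.Γ × D.Γ → ℕ → PN) (Sl Gr : ℕ → Prop) (S : D.Ω → ℕ → ℕ → ℝ) : Prop where
  tS : ∀ ω, E ω → ∀ u k, u ≤ k → S ω u k = 0
  sheet : ∀ ω, E ω → ∀ Bx : ℝ, 1 ≤ Bx → ∀ b : ℕ → ℝ, b 0 = D.X ω 0 →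
    (∀ k, Sl k → |nat (D.g i j) (P (bb D i j r ω)) b k| ≤ exp (Bx * z)) →
    (∀ u, Gr u → b u = eval b (D.Ψ (i - r') (j + r) ω u)) →
    ∀ u, Gr u → |nat (D.g i j) (P (bb D i j r ω)) b u - (nn5 D n i j r Sl P S ω u +
      ∑ k ∈ (range n).filter Sl, S ω u k * nat (D.g i j) (P (bb D i j r ω)) b k)| ≤
      exp (C * Bx * z) * (exp (C * z) / 2 ^ (y * z))

section

variable {c k : ℕ} {Sl Gr : ℕ → Prop} {ys : Fin k → ℕ} {gs : Fin c → ℕ}
  (H : Enm Sl Gr ys gs)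

include H

open Classical in
theorem Enm.sum_gl (l : Fin c) (φ : ℕ → ℝ) :
    ∑ u ∈ (range (gs l + 1)).filter Gr, φ u = ∑ i ∈ univ.filter (fun i => i ≤ l), φ (gs i) := by
  have h1 : (range (gs l + 1)).filter Gr =
      (univ.filter (fun i : Fin c => i ≤ l)).map ⟨gs, H.gsi.injective⟩ := by
    ext u
    simp only [mem_filter, mem_range, mem_map, mem_univ, true_and, Function.Embedding.coeFn_mk]
    constructor
    · intro h
      obtain ⟨i, rfl⟩ := H.gso u h.2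
      exact ⟨i, H.gsi.le_iff_le.1 (by omega), rfl⟩
    · rintro ⟨v, h, rfl⟩
      have := H.gsi.le_iff_le.2 h
      exact ⟨by omega, H.gs1 v⟩
  rw [h1, Finset.sum_map]
  rfl

open Classical in
theorem Enm.sum_ug {l : Fin c} {f : Fin c → ℝ} (hf : ∀ i, l < i → f i = 0) (φ : ℕ → ℝ) :
    ∑ u ∈ (range (gs l + 1)).filter Gr, ug gs f u * φ u = ∑ i, f i * φ (gs i) := by
  rw [H.sum_gl l fun u => ug gs f u * φ u]
  have e : ∀ i, ug gs f (gs i) = f i := fun i => ug_gs H.gsi.injective f i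
  simp only [e]
  refine Finset.sum_subset (Finset.filter_subset _ _) fun i _ hi => ?_
  rw [mem_filter] at hi
  push Not at hi
  rw [hf i (hi (mem_univ i)), zero_mul]

open Classical in
theorem Enm.sum_ys (m : ℕ) (φ : ℕ → ℝ) :
    ∑ u ∈ (range m).filter Sl, φ u = ∑ a ∈ univ.filter (fun a => ys a < m), φ (ys a) := by
  have h1 : (range m).filter Sl = (univ.filter (fun a : Fin k => ys a < m)).map ⟨ys, H.ysi⟩ := by
    ext u
    simp only [mem_filter, mem_range, mem_map, mem_univ, true_and, Function.Embedding.coeFn_mk]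
    constructor
    · intro h
      obtain ⟨i, rfl⟩ := H.yso u h.2
      exact ⟨i, h.1, rfl⟩
    · rintro ⟨v, h, rfl⟩
      exact ⟨h, H.ys1 v⟩
  rw [h1, Finset.sum_map]
  rfl

variable {D : NDat2} {n i j r : ℕ} {P : D.Γ × D.Γ → ℕ → PN} {S : D.Ω → ℕ → ℕ → ℝ}

open Classical in
/-- The height over the own sheet, over `Fin k`. -/
theorem Enm.nn_eq (hd : Dic n Sl Gr) (ω : D.Ω) (u : ℕ) : nn5 D n i j r Sl P S ω u =
    ze D i j r P ω u - ∑ a, S ω u (ys a) * ze D i j r P ω (ys a) := by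
  unfold nn5
  rw [H.sum_ys n fun k => S ω u k * ze D i j r P ω k]
  congr 1
  refine Finset.sum_congr ?_ fun _ _ => rfl
  refine Finset.filter_true_of_mem fun a _ => ?_
  exact (hd.s1 _ (H.ys1 a)).2

open Classical in
/-- The functional of a covector with leading coordinate `l`. -/
theorem Enm.LM_eq (hd : Dic n Sl Gr) {w : ℕ} {l : Fin c} {f : Fin c → ℝ}
    (hf : ∀ i, l < i → f i = 0) (g0 : Fin k → ℝ)
    {t₀ : D.Ω → ℝ} {nv e0 : D.Ω → ℕ → ℝ} {ω : D.Ω} (h1 : nv ω = ug gs f)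
    (h2 : e0 ω = ug ys g0) (x : ℕ → ℝ) :
    LM D i j r P Sl Gr (gs l) w (nn5 D n i j r Sl P S) t₀ nv e0 (zr D) ω x =
      ∑ u, f u * (nat (D.g i j) (P (bb D i j r ω)) x (gs u) -
        (ze D i j r P ω (gs u) - ∑ a, S ω (gs u) (ys a) * ze D i j r P ω (ys a))) -
      ∑ a ∈ univ.filter (fun a => ys a < gs l), g0 a *
        nat (D.g i j) (P (bb D i j r ω)) x (ys a) := by
  unfold LM Lam lc zr
  rw [h1, h2, H.sum_ug hf, H.sum_ug hf]
  simp only [zero_mul, add_zero]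
  rw [H.sum_ys (gs l) fun k => ug ys g0 k * nat (D.g i j) (P (bb D i j r ω)) x k]
  have e : ∀ (g : Fin k → ℝ) a, ug ys g (ys a) = g a := fun g a => ug_gs H.ysi g a
  simp only [e]
  have e2 : ∑ u, f u * (nat (D.g i j) (P (bb D i j r ω)) x (gs u) -
      (ze D i j r P ω (gs u) - ∑ a, S ω (gs u) (ys a) * ze D i j r P ω (ys a))) =
      ∑ u, f u * nat (D.g i j) (P (bb D i j r ω)) x (gs u) -
      ∑ u, f u * nn5 D n i j r Sl P S ω (gs u) := by
    rw [← Finset.sum_sub_distrib]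
    refine Finset.sum_congr rfl fun u _ => ?_
    rw [H.nn_eq hd ω (gs u)]
    ring
  rw [e2]
  ring

open Classical in
/-- **The difference of the total functional and of the functional of the line.** -/
theorem Enm.dif_LM (hd : Dic n Sl Gr) {w : ℕ} {l : Fin c} {F : Finset (Fin c)} {v : Fin c → ℝ}
    {f : Fin c → Fin c → ℝ} {rr : Fin c → ℝ} {g0 : Fin k → ℝ} {p0 : Fin c → Fin k → ℝ}
    (hv : ∀ i, l < i → v i = 0) (hf : ∀ g ∈ F, ∀ i, l < i → f g i = 0)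
    {t₀ : D.Ω → ℝ} {nv e0 nvt e0t : D.Ω → ℕ → ℝ} {ω : D.Ω} (h1 : nv ω = ug gs v)
    (h2 : e0 ω = ug ys g0)
    (h1t : nvt ω = ug gs (fun u => v u - ∑ g ∈ F, rr g * f g u))
    (h2t : e0t ω = ug ys (fun a => g0 a - ∑ g ∈ F, rr g * p0 g a)) (x : ℕ → ℝ) :
    LM D i j r P Sl Gr (gs l) w (nn5 D n i j r Sl P S) t₀ nvt e0t (zr D) ω x -
      LM D i j r P Sl Gr (gs l) w (nn5 D n i j r Sl P S) t₀ nv e0 (zr D) ω x =
      - ∑ g ∈ F, rr g * (∑ u, f g u * (nat (D.g i j) (P (bb D i j r ω)) x (gs u) -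
          (ze D i j r P ω (gs u) - ∑ a, S ω (gs u) (ys a) * ze D i j r P ω (ys a))) -
        ∑ a ∈ univ.filter (fun a => ys a < gs l), p0 g a *
          nat (D.g i j) (P (bb D i j r ω)) x (ys a)) := by
  rw [H.LM_eq hd hv g0 h1 h2 x, H.LM_eq hd (l := l) (f := fun u => v u - ∑ g ∈ F, rr g * f g u)
    (fun i hi => by
      rw [hv i hi, Finset.sum_eq_zero fun g hg => by rw [hf g hg i hi, mul_zero], sub_zero]) _
    h1t h2t x, lin_split]
  obtain ⟨A, hA⟩ : ∃ A : Finset (Fin k), A = univ.filter (fun a => ys a < gs l) := ⟨_, rfl⟩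
  obtain ⟨Y, hY⟩ : ∃ Y : Fin k → ℝ, Y = fun a => nat (D.g i j) (P (bb D i j r ω)) x (ys a) :=
    ⟨_, rfl⟩
  have eY : ∀ a, nat (D.g i j) (P (bb D i j r ω)) x (ys a) = Y a := fun a => by rw [hY]
  simp only [eY]
  rw [← hA]
  have e1 : ∑ a ∈ A, (g0 a - ∑ g ∈ F, rr g * p0 g a) * Y a = ∑ a ∈ A, g0 a * Y a -
        ∑ g ∈ F, rr g * ∑ a ∈ A, p0 g a * Y a := by
    have f1 : ∀ a, (g0 a - ∑ g ∈ F, rr g * p0 g a) * Y a =
        g0 a * Y a - ∑ g ∈ F, rr g * (p0 g a * Y a) := by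
      intro a
      have f2 : ∑ g ∈ F, rr g * (p0 g a * Y a) = (∑ g ∈ F, rr g * p0 g a) * Y a := by
        rw [Finset.sum_mul]
        exact Finset.sum_congr rfl fun g _ => by ring
      rw [f2]
      ring
    simp only [f1]
    rw [Finset.sum_sub_distrib, Finset.sum_comm]
    congr 1
    exact Finset.sum_congr rfl fun g _ => by rw [Finset.mul_sum]
  rw [e1]
  have e2 : ∀ (a b : Fin c → ℝ), ∑ g ∈ F, rr g * (a g - b g) =
      ∑ g ∈ F, rr g * a g - ∑ g ∈ F, rr g * b g := fun a b => by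
    rw [← Finset.sum_sub_distrib]
    exact Finset.sum_congr rfl fun g _ => by ring
  rw [e2]
  ring

/-- The change of the chart is unipotent. -/
theorem Enm.cM_zero {K K₁ K' J a₀ w₀ z M r' y a : ℕ} {lam gam : ℕ → ℝ} {κ C₁ C₀ : ℝ}
    {q : D.Ω → ℝ} {E : D.Ω → Prop}
    (hF : Fx D n K K₁ K' J a₀ w₀ z M i j r r' a y lam gam κ C₁ C₀ q E P Sl Gr) {ω : D.Ω}
    (hω : E ω) {u v : Fin c} (huv : u ≤ v) :
    cM D J a₀ z i j r a E P (bb D i j r ω) (rcd D i j r a ω) (gs u) (gs v) =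
      if u = v then 1 else 0 := by
  have tP := (hF.fr ω hω).2.2.tri
  have tW : TriN (vfr D i j r a E P (rcd D i j r a ω)) := by
    obtain ⟨ω', h1, h2, h3⟩ := vfr_ex i j r a P hω
    rw [h3]
    exact (hF.fr ω' h1).2.2.tri
  have hle : gs u ≤ gs v := H.gsi.monotone huv
  unfold cM MM
  rw [kap_zero (atT_tri tP _) (atT_tri tW _) hle, sub_zero]
  by_cases h : u = v
  · rw [if_pos h, if_pos (by rw [h])]
  · rw [if_neg h, if_neg fun h2 => h (H.gsi.injective h2)]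

end

/-! ### From digits -/

/-- **From digits to real slopes**, a polynomial of the time. -/
theorem dig_fun5 {c X z d : ℕ} {C N δ τ : ℝ} {t : ℤ} {f s : Fin c → ℝ} {p : Polynomial ℝ}
    (hs : ∀ i, |s i| ≤ exp (C * z)) (hf : ∀ i, |f i| ≤ N) (hN : 0 ≤ N) (hp : PB d N p)
    (ht : |(t : ℝ) - 2 ^ X * τ| ≤ 1) (hτ : |τ| ≤ 1)
    (h : |∑ i, f i * ((dg X (s i * (2 * Ry z C) / Rg z C) : ℝ) / 2 ^ X) -
      p.eval ((t : ℝ) / 2 ^ X)| ≤ δ) :
    |∑ i, f i * s i - (Polynomial.C (exp (C * z)) * p).eval τ| ≤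
      exp (C * z) * (δ + (c + lpc d) * (N / 2 ^ X)) := by
  have hX : (0 : ℝ) < 2 ^ X := by positivity
  have hX1 : (1 : ℝ) ≤ 2 ^ X := one_le_pow₀ (by norm_num)
  have he := exp_pos (C * z)
  have k1 : |∑ i, f i * ((dg X (s i * (2 * Ry z C) / Rg z C) : ℝ) / 2 ^ X) -
      ∑ i, f i * (exp (-(C * z)) * s i)| ≤ c * (N * (1 / 2 ^ X)) := by
    rw [← Finset.sum_sub_distrib]
    refine (Finset.abs_sum_le_sum_abs _ _).trans ?_
    have : ∀ i ∈ (univ : Finset (Fin c)), |f i * ((dg X (s i * (2 * Ry z C) / Rg z C) : ℝ) /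
        2 ^ X) - f i * (exp (-(C * z)) * s i)| ≤ N * (1 / 2 ^ X) := by
      intro i _
      rw [← mul_sub, abs_mul]
      exact mul_le_mul (hf i) (dig_E (hs i)) (abs_nonneg _) hN
    refine (Finset.sum_le_sum this).trans (le_of_eq ?_)
    rw [Finset.sum_const, Finset.card_univ, Fintype.card_fin, nsmul_eq_mul]
  have ht2 : |(t : ℝ) / 2 ^ X - τ| ≤ 1 / 2 ^ X := by
    have e2 : (t : ℝ) / 2 ^ X - τ = ((t : ℝ) - 2 ^ X * τ) / 2 ^ X := by
      field_simp
    rw [e2, abs_div, abs_of_pos hX]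
    exact div_le_div_of_nonneg_right ht hX.le
  have k2 : |p.eval ((t : ℝ) / 2 ^ X) - p.eval τ| ≤ lpc d * N * (1 / 2 ^ X) := by
    refine hp.lip ?_ (by linarith) ht2
    have h3 : (1 : ℝ) / 2 ^ X ≤ 1 := by
      rw [div_le_one hX]
      exact hX1
    have := abs_add_le ((t : ℝ) / 2 ^ X - τ) τ
    rw [sub_add_cancel] at this
    linarith
  have e1 : ∑ i, f i * s i = exp (C * z) * ∑ i, f i * (exp (-(C * z)) * s i) := by
    rw [Finset.mul_sum]
    refine Finset.sum_congr rfl fun i _ => ?_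
    rw [exp_neg]
    field_simp
  have e2 : ∑ i, f i * s i - (Polynomial.C (exp (C * z)) * p).eval τ =
      exp (C * z) * (∑ i, f i * (exp (-(C * z)) * s i) - p.eval τ) := by
    rw [e1, Polynomial.eval_mul, Polynomial.eval_C]
    ring
  rw [e2, abs_mul, abs_of_pos he]
  refine mul_le_mul_of_nonneg_left ?_ he.le
  have e3 : (c : ℝ) * (N * (1 / 2 ^ X)) = c * (N / 2 ^ X) := by ring
  have e4 : lpc d * N * (1 / 2 ^ X) = lpc d * (N / 2 ^ X) := by ring
  rw [e3] at k1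
  rw [e4] at k2
  rw [abs_le] at h k1 k2 ⊢
  constructor
  · linarith [h.1, k1.2, k2.1, k2.2]
  · linarith [h.2, k1.1, k2.1, k2.2]

theorem PB.mulC {d : ℕ} {N e : ℝ} {p : Polynomial ℝ} (h : PB d N p) (he : 0 ≤ e) :
    PB d (e * N) (Polynomial.C e * p) := by
  refine ⟨(Polynomial.natDegree_C_mul_le _ _).trans h.1, fun i => ?_⟩
  rw [Polynomial.coeff_C_mul, abs_mul, abs_of_nonneg he]
  exact mul_le_mul_of_nonneg_left (h.2 i) he

end Pool.P5
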