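import Pool.Agent.H52.P5.Tpl

/-!
# The consumer with slopes which are polynomials of the time

`hL5_near`: the new label and the label with the slopes of the exact time are near on the box of
the radius. `hL_dif5`: two samples with the same exact point. `cons5`: a new label.
-/

set_option autoImplicit false

namespace Pool.P5

open Finset Real MvPolynomial
open Pool.Agent.H49.Ent Pool.Agent.H32.Dense Pool.STK Pool.STAT Pool.MIC.Frm Pool.FRM Pool.P4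
open Pool.MIC.Fru (gw nat_gw nat_gw0 atT_tri atT_deg)
open Pool.STAT.Glu (kN)
open Pool.BFL (Pb)

/-- The slopes at the exact time of the sample. -/
noncomputable def et (D : NDat2) (w : ℕ) (t₀ : D.Ω → ℝ) (ep : D.Ω → ℕ → Polynomial ℝ) (ω : D.Ω) :
    ℕ → ℝ := ev5 w (t₀ ω) (D.X ω 0) (ep ω)

/-- Zero slopes. -/
def zr (D : NDat2) (_ : D.Ω) (_ : ℕ) : ℝ := 0

/-- **The label with the slopes of the exact time.** -/
theorem hL5_near {D : NDat2} {i j r m w d : ℕ} {P : D.Γ × D.Γ → ℕ → PN} {Sl Gr : ℕ → Prop}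
    {t₀ : D.Ω → ℝ} {nv : D.Ω → ℕ → ℝ} {ep : D.Ω → ℕ → Polynomial ℝ} {ω : D.Ω} {N₀ ρ B : ℝ}
    {x : ℕ → ℝ} (hP : TriN (P (bb D i j r ω))) (hm : Gr m) (hnv : nv ω m = 1)
    (hep : ∀ k, PB d N₀ (ep ω k)) (hT : |2 ^ w * (D.X ω 0 - t₀ ω)| ≤ 1)
    (hρ : 2 ^ w * |x 0 - D.X ω 0| ≤ ρ) (hρ1 : ρ ≤ 1) (hB : 0 ≤ B)
    (hx : ∀ k, Sl k → k < m → |nat (D.g i j) (P (bb D i j r ω)) x k| ≤ B)
    (hp : ∀ k, Sl k → k < m →
      |nat (D.g i j) (P (bb D i j r ω)) (pp D (D.ln ω) (x 0)) k| ≤ B) :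
    2 ^ D.g i j m * |eval x (hL5 D i j r P Sl Gr m w t₀ nv ep ω) -
      eval x (hL D i j r P Sl Gr m w t₀ nv (et D w t₀ ep) (zr D) ω)| ≤
      2 * (m * (lpc d * N₀ * ρ * B)) := by
  have pp0 : pp D (D.ln ω) (x 0) 0 = x 0 := by
    unfold pp
    rw [if_pos rfl]
  have e1 := hL5_eval (w := w) (t₀ := t₀) (ep := ep) (Sl := Sl) hP hm hnv x
  have e2 := hL_eval (w := w) (t₀ := t₀) (e0 := et D w t₀ ep) (e1 := zr D) (Sl := Sl) hP hm hnv x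
  have n1 := L5_near (g := D.g i j) (P := P (bb D i j r ω)) (Sl := Sl) (Gr := Gr) (m := m)
    (nv := nv ω) hep hT hρ hρ1 hx hB
  have n2 := L5_near (g := D.g i j) (P := P (bb D i j r ω)) (Sl := Sl) (Gr := Gr) (m := m)
    (nv := nv ω) (x := pp D (D.ln ω) (x 0)) hep hT (by rw [pp0]; exact hρ) hρ1 hp hB
  have f1 : et D w t₀ ep ω = ev5 w (t₀ ω) (D.X ω 0) (ep ω) := rfl
  have f2 : zr D ω = fun _ => 0 := rfl
  rw [f1, f2] at e2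
  obtain ⟨H, hH⟩ : ∃ H : ℝ, H = eval x (hL5 D i j r P Sl Gr m w t₀ nv ep ω) := ⟨_, rfl⟩
  obtain ⟨H', hH'⟩ : ∃ H' : ℝ,
    H' = eval x (hL D i j r P Sl Gr m w t₀ nv (et D w t₀ ep) (zr D) ω) := ⟨_, rfl⟩
  rw [← hH] at e1
  rw [← hH'] at e2
  rw [← hH, ← hH']
  have h2 : (0 : ℝ) < 2 ^ D.g i j m := by positivity
  have e3 : 2 ^ D.g i j m * |H - H'| = |2 ^ D.g i j m * (x m - H') - 2 ^ D.g i j m * (x m - H)| := by
    rw [← mul_sub, abs_mul, abs_of_pos h2]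
    congr 2
    ring
  rw [e3, e1, e2]
  rw [abs_le] at n1 n2 ⊢
  constructor
  · linarith [n1.1, n1.2, n2.1, n2.2]
  · linarith [n1.1, n1.2, n2.1, n2.2]

/-- **Two samples with the same exact point.** -/
theorem hL_dif5 (n K d : ℕ) (C C₁ b : ℝ) (hC : 0 ≤ C) (hC₁ : 0 ≤ C₁) (hb : 1 ≤ b) :
    ∃ c' : ℝ, 1 ≤ c' ∧
    ∀ (D : NDat2) (K₁ K' J a₀ w₀ z M i j r r' a y : ℕ) (lam gam : ℕ → ℝ) (κ : ℝ)
      (q : D.Ω → ℝ) (E : D.Ω → Prop) (P : D.Γ × D.Γ → ℕ → PN) (Sl Gr : ℕ → Prop),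
      Fx D n K K₁ K' J a₀ w₀ z M i j r r' a y lam gam κ C₁ C q E P Sl Gr →
      exp (c' * z) ≤ 2 ^ (a * z) →
      ∀ (m w : ℕ) (N₀ δ ρ δT : ℝ) (nn : D.Ω → ℕ → ℝ) (S : D.Ω → ℕ → ℕ → ℝ) (t₀ : D.Ω → ℝ)
        (nD nvt e0t nv : D.Ω → ℕ → ℝ) (ep : D.Ω → ℕ → Polynomial ℝ), m ≤ n → Gr m →
        w₀ + j * z ≤ w → 0 ≤ δ → 1 ≤ N₀ → (2 : ℝ) ^ w / 2 ^ (a₀ + i * z) ≤ ρ → ρ ≤ 1 →
      ∀ ω ω', Cvt D n J a₀ z i j r r' a y m w C N₀ δ E P Sl Gr nn S t₀ nD nvt e0t (zr D) ω →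
      Cvt D n J a₀ z i j r r' a y m w C N₀ δ E P Sl Gr nn S t₀ nD nvt e0t (zr D) ω' →
      Cv4 D n z i j r r' y m w C N₀ δ E P Sl Gr nn S t₀ nv (et D w t₀ ep) (zr D) ω →
      Cv4 D n z i j r r' y m w C N₀ δ E P Sl Gr nn S t₀ nv (et D w t₀ ep) (zr D) ω' →
      (∀ k, PB d N₀ (ep ω k)) → (∀ k, PB d N₀ (ep ω' k)) →
      nv ω m = 1 → nv ω' m = 1 →
      rcd D i j r a ω = rcd D i j r a ω' → D.s (i - r') (j + r) ω = D.s (i - r') (j + r) ω' →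
      nD ω = nD ω' → ∀ x : ℕ → ℝ, |x 0 - D.X ω 0| ≤ 1 / 2 ^ (a₀ + i * z) →
      Bx (D.g i j) (P (bb D i j r ω)) (m + 1) (exp (b * z)) x →
      |LM D i j r P Sl Gr m w nn t₀ nvt e0t (zr D) ω x -
        LM D i j r P Sl Gr m w nn t₀ nv (et D w t₀ ep) (zr D) ω x| ≤ δT →
      |LM D i j r P Sl Gr m w nn t₀ nvt e0t (zr D) ω' x -
        LM D i j r P Sl Gr m w nn t₀ nv (et D w t₀ ep) (zr D) ω' x| ≤ δT →
      2 ^ D.g i j m * |eval x (hL5 D i j r P Sl Gr m w t₀ nv ep ω) -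
        eval x (hL5 D i j r P Sl Gr m w t₀ nv ep ω')| ≤
        2 * δT + exp (c' * z) * (N₀ * (1 / 2 ^ (y * z) + ρ) + δ) := by
  obtain ⟨c₁, h1, pn⟩ := path_near n K C C₁ hC
  obtain ⟨c₂, h2, dif⟩ := hL_dif2 n K C C₁ b hC hC₁ hb
  obtain ⟨c₃, h3, rl⟩ := rep_rly n K C C₁ b hC hC₁ (by linarith)
  have hl := lpc_nn d
  obtain ⟨e, he⟩ : ∃ e : ℝ, e = c₁ + c₃ + b := ⟨_, rfl⟩
  have hn0 : (0 : ℝ) ≤ n := Nat.cast_nonneg n
  refine ⟨c₂ + e + n + lpc d + 3, by rw [he]; linarith, ?_⟩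
  intro D K₁ K' J a₀ w₀ z M i j r r' a y lam gam κ q E P Sl Gr hF haz m w N₀ δ ρ δT nn S t₀ nD nvt
    e0t nv ep hm hgm hw hδ hN₀ hρ hρ1 ω ω' hω hω' gω gω' hep hep' hnv hnv' hrc hsR hnD x hx0 hx
    ht1 ht2
  have hzr : (1 : ℝ) ≤ z := by exact_mod_cast hF.z1
  have hle : ∀ t : ℝ, t ≤ c₂ + e + n + lpc d + 3 → exp (t * z) ≤ 2 ^ (a * z) := fun t ht =>
    (ex_mono ht hzr).trans haz
  have hTT : D.T ω = D.T ω' := congrArg Prod.fst hrc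
  have hX0 : D.X ω 0 = D.X ω' 0 := X0_eq hF.ok hTT
  have hPt : TriN (P (bb D i j r ω)) := (hF.fr ω hω.mem).2.2.tri
  have hPt' : TriN (P (bb D i j r ω')) := (hF.fr ω' hω'.mem).2.2.tri
  have hρ0 : 0 ≤ ρ := le_trans (by positivity) hρ
  have h2i : (0 : ℝ) < 2 ^ (a₀ + i * z) := by positivity
  have hpr : (2 : ℝ) ^ (a₀ + i * z) * |x 0 - D.X ω 0| ≤ 1 := by
    rw [le_div_iff₀ h2i] at hx0
    linarith
  have hpw : (2 : ℝ) ^ w * |x 0 - D.X ω 0| ≤ ρ := by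
    refine le_trans ?_ hρ
    calc (2 : ℝ) ^ w * |x 0 - D.X ω 0| ≤ 2 ^ w * (1 / 2 ^ (a₀ + i * z)) := by gcongr
      _ = _ := by ring
  have k1 := dif D K₁ K' J a₀ w₀ z M i j r r' a y lam gam κ q E P Sl Gr hF
    (hle _ (by rw [he]; linarith)) m w N₀ δ ρ δT nn S t₀ nD nvt e0t (zr D) nv (et D w t₀ ep) (zr D)
    hm hgm hw hδ hN₀ hρ ω ω' hω hω' gω gω' hnv hnv' hrc hsR hnD x hx0 hx ht1 ht2
  -- bounds of the coordinates
  obtain ⟨B, hB⟩ : ∃ B : ℝ, B = exp (e * z) := ⟨_, rfl⟩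
  have hB0 : 0 ≤ B := by rw [hB]; exact (exp_pos _).le
  have b1 : exp (b * z) ≤ B := by rw [hB]; exact ex_mono (by rw [he]; linarith) hzr
  have b2 : exp (c₁ * z) ≤ B := by rw [hB]; exact ex_mono (by rw [he]; linarith) hzr
  have b3 : exp (c₃ * z) ≤ B := by rw [hB]; exact ex_mono (by rw [he]; linarith) hzr
  have x1 : Bx (gw (a₀ + i * z) (D.g i j)) (atT (D.X ω 0) (P (bb D i j r ω))) (m + 1)
      (exp (b * z)) x := bx_gw hx (hpr.trans (ex_one (by linarith) hzr))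
  have x2 := ((rl D K₁ K' J a₀ w₀ z M i j r r' a y lam gam κ q E P Sl Gr hF
    (hle _ (by rw [he]; linarith))).1 ω ω' hω.mem hω'.mem hrc).box (m + 1) (by omega) x x1
  have p1 := pn D K₁ K' J a₀ w₀ z M i j r r' a y lam gam κ q E P Sl Gr hF ω hω.mem (x 0) hx0
  have p2 := pn D K₁ K' J a₀ w₀ z M i j r r' a y lam gam κ q E P Sl Gr hF ω' hω'.mem (x 0)
    (by rw [← hX0]; exact hx0)
  have k2 := hL5_near (w := w) (t₀ := t₀) (Sl := Sl) (ρ := ρ) (B := B) (x := x) hPt hgm hnv hep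
    hω.tm hpw hρ1 hB0 (fun k _ hkm => (hx k (by omega)).trans b1)
    (fun k hk hkm => (p1.slo k hk (by omega)).trans b2)
  have k3 := hL5_near (w := w) (t₀ := t₀) (Sl := Sl) (ρ := ρ) (B := B) (x := x) hPt' hgm hnv' hep'
    hω'.tm (by rw [← hX0]; exact hpw) hρ1 hB0 (fun k hk hkm => by
      have hk1 := (hF.dic.s1 k hk).1
      have := x2 k (by omega)
      rw [nat_gw' _ _ _ _ _ hk1] at this
      exact this.trans b3)
    (fun k hk hkm => (p2.slo k hk (by omega)).trans b2)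
  -- the sum
  obtain ⟨H, hH⟩ : ∃ H : ℝ, H = eval x (hL5 D i j r P Sl Gr m w t₀ nv ep ω) := ⟨_, rfl⟩
  obtain ⟨H', hH'⟩ : ∃ H' : ℝ, H' = eval x (hL5 D i j r P Sl Gr m w t₀ nv ep ω') := ⟨_, rfl⟩
  obtain ⟨G, hG⟩ : ∃ G : ℝ,
    G = eval x (hL D i j r P Sl Gr m w t₀ nv (et D w t₀ ep) (zr D) ω) := ⟨_, rfl⟩
  obtain ⟨G', hG'⟩ : ∃ G' : ℝ,
    G' = eval x (hL D i j r P Sl Gr m w t₀ nv (et D w t₀ ep) (zr D) ω') := ⟨_, rfl⟩
  rw [← hG, ← hG'] at k1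
  rw [← hH, ← hG] at k2
  rw [← hH', ← hG'] at k3
  rw [← hH, ← hH']
  have h2g : (0 : ℝ) < 2 ^ D.g i j m := by positivity
  have t1 : |H - H'| ≤ |G - G'| + |H - G| + |H' - G'| := by
    have e1 : H - H' = (G - G') + (H - G) - (H' - G') := by ring
    rw [e1]
    exact (abs_sub _ _).trans (add_le_add (abs_add_le _ _) le_rfl)
  have t2 := mul_le_mul_of_nonneg_left t1 h2g.le
  have t3 : 2 ^ D.g i j m * |H - H'| ≤ (2 * δT + exp (c₂ * z) *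
      (N₀ * (1 / 2 ^ (y * z) + ρ) + δ)) + 4 * (m * (lpc d * N₀ * ρ * B)) := by
    linarith
  refine t3.trans ?_
  obtain ⟨X, hX⟩ : ∃ X : ℝ, X = N₀ * (1 / 2 ^ (y * z) + ρ) + δ := ⟨_, rfl⟩
  have hNr : N₀ * ρ ≤ X := by
    have : 0 ≤ N₀ * (1 / 2 ^ (y * z)) := by
      have : 0 ≤ N₀ := by linarith
      positivity
    rw [hX]
    nlinarith
  have hX0' : 0 ≤ X := le_trans (by
    have : 0 ≤ N₀ := by linarith
    positivity) hNr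
  rw [← hX]
  have m1 : (m : ℝ) ≤ exp (n * z) := by
    have h5 := Real.add_one_le_exp ((n : ℝ) * z)
    have h6 : (n : ℝ) ≤ n * z := le_mul_of_one_le_right hn0 hzr
    have h7 : (m : ℝ) ≤ n := by exact_mod_cast hm
    linarith
  have m2 : lpc d ≤ exp (lpc d * z) := by
    have h5 := Real.add_one_le_exp (lpc d * z)
    have h6 : lpc d ≤ lpc d * z := le_mul_of_one_le_right hl hzr
    linarith
  have m3 : (4 : ℝ) ≤ exp (2 * z) := by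
    have t3 : (2.7 : ℝ) ≤ exp 1 := by
      have := Real.exp_one_gt_d9
      linarith
    calc (4 : ℝ) ≤ 2.7 ^ 2 := by norm_num
      _ ≤ exp 1 ^ 2 := pow_le_pow_left₀ (by norm_num) t3 2
      _ = exp (2 * 1) := by rw [← Real.exp_nat_mul]; norm_num
      _ ≤ exp (2 * z) := exp_le_exp.2 (by linarith)
  have m4 : 4 * (m * (lpc d * N₀ * ρ * B)) ≤ exp ((2 + n + lpc d + e) * z) * X := by
    have e2 : exp ((2 + n + lpc d + e) * z) = exp (2 * z) * exp (n * z) * exp (lpc d * z) * B := by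
      rw [hB, ← exp_add, ← exp_add, ← exp_add]
      ring_nf
    rw [e2]
    have a1 : 4 * (m : ℝ) ≤ exp (2 * z) * exp (n * z) :=
      mul_le_mul m3 m1 (Nat.cast_nonneg m) (exp_pos _).le
    have a2 : 4 * (m : ℝ) * lpc d ≤ exp (2 * z) * exp (n * z) * exp (lpc d * z) :=
      mul_le_mul a1 m2 hl (by positivity)
    have a3 := mul_le_mul_of_nonneg_right a2 hB0
    have hN0 : 0 ≤ N₀ := by linarith
    calc 4 * (m * (lpc d * N₀ * ρ * B)) = (4 * (m : ℝ) * lpc d * B) * (N₀ * ρ) := by ring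
      _ ≤ (exp (2 * z) * exp (n * z) * exp (lpc d * z) * B) * X :=
          mul_le_mul a3 hNr (by positivity) (by positivity)
  have m5 : exp (c₂ * z) ≤ exp ((c₂ + e + n + lpc d + 2) * z) :=
    ex_mono (by rw [he]; linarith) hzr
  have m6 : exp ((2 + n + lpc d + e) * z) ≤ exp ((c₂ + e + n + lpc d + 2) * z) :=
    ex_mono (by linarith) hzr
  have m7 : 2 * exp ((c₂ + e + n + lpc d + 2) * z) ≤ exp ((c₂ + e + n + lpc d + 3) * z) := by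
    have h3 : (2 : ℝ) ≤ exp (1 * z) := by
      have := Real.add_one_le_exp (1 * (z : ℝ))
      linarith
    calc 2 * exp ((c₂ + e + n + lpc d + 2) * z)
        ≤ exp (1 * z) * exp ((c₂ + e + n + lpc d + 2) * z) := by gcongr
      _ = _ := by rw [← exp_add]; ring_nf
  have g4 := mul_le_mul_of_nonneg_right m5 hX0'
  have g5 := mul_le_mul_of_nonneg_right m6 hX0'
  have g6 := mul_le_mul_of_nonneg_right m7 hX0'
  linarith

/-- **The consumer**, slopes polynomial in the time. -/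
theorem cons5 (n K d : ℕ) (C C₁ b₀ : ℝ) (hC : 0 ≤ C) (hC₁ : 0 ≤ C₁) (hb₀ : 1 ≤ b₀) :
    ∃ c' : ℝ, 1 ≤ c' ∧
    ∀ (D : NDat2) (K₁ K' J a₀ w₀ z M i j r r' a y : ℕ) (lam gam : ℕ → ℝ) (κ : ℝ)
      (q : D.Ω → ℝ) (E : D.Ω → Prop) (P : D.Γ × D.Γ → ℕ → PN) (Sl Gr : ℕ → Prop),
      Fx D n K K₁ K' J a₀ w₀ z M i j r r' a y lam gam κ C₁ C q E P Sl Gr →
      exp (c' * z) ≤ 2 ^ (a * z) → j + 1 < M →
      ∀ (m w A : ℕ) (N₀ δ ρ δT η' : ℝ) (nn : D.Ω → ℕ → ℝ) (S : D.Ω → ℕ → ℕ → ℝ) (t₀ : D.Ω → ℝ)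
        (nD nvt e0t nv : D.Ω → ℕ → ℝ) (ep : D.Ω → ℕ → Polynomial ℝ) (Ev : D.Ω → Prop)
        (Bb : D.Ω → (ℕ → ℝ) → Prop), m ≤ n → Gr m → w₀ + j * z ≤ w → 0 ≤ δ → 0 ≤ δT →
        1 ≤ N₀ → (2 : ℝ) ^ w / 2 ^ (a₀ + i * z) ≤ ρ → ρ ≤ 1 → η' ≤ Pb q Ev →
        (∀ ω, Ev ω → Cvt D n J a₀ z i j r r' a y m w C N₀ δ E P Sl Gr nn S t₀ nD nvt e0t (zr D)
          ω) →
        (∀ ω, Ev ω → Cv4 D n z i j r r' y m w C N₀ δ E P Sl Gr nn S t₀ nv (et D w t₀ ep) (zr D)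
          ω) →
        (∀ ω, Ev ω → ∀ k, PB d N₀ (ep ω k)) →
        (∀ ω, Ev ω → nv ω m = 1) →
        (∀ ω ω', Ev ω → Ev ω' → D.pt ω = D.pt ω' → nD ω = nD ω') →
        (∀ ω ω', Ev ω → Ev ω' → D.wn J (w₀ + (j + 1) * z) ω = D.wn J (w₀ + (j + 1) * z) ω' →
          t₀ ω = t₀ ω' ∧ nv ω = nv ω' ∧ ep ω = ep ω') →
        (∀ ω, Ev ω → Bb ω (D.X ω)) →
        (∀ ω b, Ev ω → Bb ω b → |b 0 - D.X ω 0| ≤ 1 / 2 ^ (a₀ + i * z) ∧
          Bx (D.g i j) (P (bb D i j r ω)) m (exp (b₀ * z)) b) →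
        (∀ ω b t, Ev ω → Bb ω b → Bb ω (Function.update b m t)) →
        (∀ ω ω', Ev ω → Ev ω' → D.pt ω = D.pt ω' → ∀ b, Bb ω b → Bb ω' b) →
        (∀ ω, Ev ω → ∀ b, Bb ω b →
          |LM D i j r P Sl Gr m w nn t₀ nvt e0t (zr D) ω b -
            LM D i j r P Sl Gr m w nn t₀ nv (et D w t₀ ep) (zr D) ω b| ≤ δT) →
        2 * (2 * δT + exp (c' * z) * (N₀ * (1 / 2 ^ (y * z) + ρ) + δ)) *
          2 ^ (D.g i (j + 1) m + A * z) ≤ 2 ^ D.g i j m →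
        LabB D J w₀ z i (j + 1) m A (kN K (d + 1)) η' q Bb := by
  obtain ⟨c₂, h2, dif⟩ := hL_dif5 n K d C C₁ b₀ hC hC₁ hb₀
  refine ⟨c₂, h2, ?_⟩
  intro D K₁ K' J a₀ w₀ z M i j r r' a y lam gam κ q E P Sl Gr hF haz hj1 m w A N₀ δ ρ δT η' nn
    S t₀ nD nvt e0t nv ep Ev Bb hmn hgm hw hδ hδT hN₀ hρ hρ1 hη hC1 hC4 hep hnv hpt hwn hBX hBN hBu
    hBp hth hnum
  have hO := hF.ok
  have hm1 := (hF.dic.g1 m hgm).1
  have hiM := hF.iM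
  have hjM := hF.jM
  have hq : ∀ ω, Ev ω → 0 < q ω := fun ω h => (hF.fr ω (hC1 ω h).mem).1
  refine labB_of_det hO.isLaw.nonneg Bb Ev hη (fun ω _ h => hBX ω h)
    (hL5 D i j r P Sl Gr m w t₀ nv ep) ?_ ?_ ?_ ?_
  · intro ω ω' x x' h h' e
    have e1' := bb_wn hO hiM.le hj1.le r ω ω' x x' e
    obtain ⟨f1, f2, f3⟩ := hwn ω ω' h h' e
    have f5 : D.ln ω = D.ln ω' := by
      simp only [NDat2.wn, Prod.mk.injEq] at e
      exact e.1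
    unfold hL5
    rw [e1', f1, f2, f3, f5]
  · intro ω x h
    exact hL5_deg hO hF.k1 hF.k2 hm1 (fun k => (hep ω h k).1) (hF.fr ω (hC1 ω h).mem).2.2
  · intro ω x h
    rw [hL5_own hO x (hF.fr ω (hC1 ω h).mem).2.2.tri hF.dic hgm hmn (hnv ω h), sub_self, abs_zero]
    positivity
  · intro ω ω' x x' h h' hp b hb
    obtain ⟨b₁, hb₁⟩ : ∃ b₁, b₁ = Function.update b m (eval b (P (bb D i j r ω) m)) := ⟨_, rfl⟩
    have hPt := (hF.fr ω (hC1 ω h).mem).2.2.tri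
    have hbl : ∀ l, l ≠ m → b₁ l = b l := fun l hl => by
      rw [hb₁, Function.update_of_ne hl]
    have hB₁ : Bb ω b₁ := by
      rw [hb₁]
      exact hBu ω b _ h hb
    have hN := hBN ω b₁ h hB₁
    have hbx := hN.2
    have hbx' : Bx (D.g i j) (P (bb D i j r ω)) (m + 1) (exp (b₀ * z)) b₁ := by
      intro k hk
      rcases Nat.lt_succ_iff_lt_or_eq.1 hk with h3 | h3
      · exact hbx k h3
      · rw [h3]
        unfold nat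
        rw [Pool.SYS35.eval_congr (hPt m) (b' := b) fun i hi => hbl i (by omega), hb₁,
          Function.update_self, sub_self, mul_zero, abs_zero]
        exact (exp_pos _).le
    have key := dif D K₁ K' J a₀ w₀ z M i j r r' a y lam gam κ q E P Sl Gr hF haz m w N₀ δ ρ δT nn S
      t₀ nD nvt e0t nv ep hmn hgm hw hδ hN₀ hρ hρ1 ω ω' (hC1 ω h) (hC1 ω' h') (hC4 ω h)
      (hC4 ω' h') (hep ω h) (hep ω' h') (hnv ω h)
      (hnv ω' h') (rcd_pt hO hiM.le (by omega) r a ω ω' x x' hp)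
      (hO.s_pt (i - r') (by omega) (j + r) hjM.le ω ω' x x' hp) (hpt ω ω' h h' hp) b₁ hN.1 hbx'
      (hth ω h b₁ hB₁) (hth ω' h' b₁ (hBp ω ω' h h' hp b₁ hB₁))
    have hv : ∀ ω, Ev ω → eval b₁ (hL5 D i j r P Sl Gr m w t₀ nv ep ω) =
        eval b (hL5 D i j r P Sl Gr m w t₀ nv ep ω) := fun ω h =>
      Pool.SYS35.eval_congr (hL5_deg hO hF.k1 hF.k2 hm1 (fun k => (hep ω h k).1)
        (hF.fr ω (hC1 ω h).mem).2.2).2 fun l hl => hbl l (by omega)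
    rw [hv ω h, hv ω' h'] at key
    obtain ⟨X, hX⟩ : ∃ X : ℝ, X = 2 * δT + exp (c₂ * z) * (N₀ * (1 / 2 ^ (y * z) + ρ) + δ) :=
      ⟨_, rfl⟩
    rw [← hX] at key hnum
    have h2g : (0 : ℝ) < 2 ^ D.g i j m := by positivity
    have h2G : (0 : ℝ) < 2 ^ (D.g i (j + 1) m + A * z) := by positivity
    rw [one_div_mul_one_div, le_div_iff₀ (by positivity)]
    have e3 : |eval b (hL5 D i j r P Sl Gr m w t₀ nv ep ω) -
        eval b (hL5 D i j r P Sl Gr m w t₀ nv ep ω')| ≤ X / 2 ^ D.g i j m := by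
      rw [le_div_iff₀ h2g]
      linarith
    calc |eval b (hL5 D i j r P Sl Gr m w t₀ nv ep ω) -
        eval b (hL5 D i j r P Sl Gr m w t₀ nv ep ω')| * (2 * 2 ^ (D.g i (j + 1) m + A * z))
        ≤ X / 2 ^ D.g i j m * (2 * 2 ^ (D.g i (j + 1) m + A * z)) :=
          mul_le_mul_of_nonneg_right e3 (by positivity)
      _ = (2 * X * 2 ^ (D.g i (j + 1) m + A * z)) / 2 ^ D.g i j m := by ring
      _ ≤ 1 := by
          rw [div_le_one h2g]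
          exact hnum

end Pool.P5
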