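import Pool.Agent.H52.P4.Nbt

/-!
# The consumer with slopes which are polynomials of the time

`L5`: the functional of a label with the slopes `p_k (τ)`, `p_k` real polynomials of degree `≤ d`.
`L5_near`: on the box of the radius it is the functional with the slopes at the exact time.
-/

set_option autoImplicit false

namespace Pool.P5

open Finset Real MvPolynomial
open Pool.Agent.H49.Ent Pool.Agent.H32.Dense Pool.STK Pool.STAT Pool.MIC.Frm Pool.FRM Pool.P4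
open Pool.MIC.Fru (gw nat_gw nat_gw0 atT_tri atT_deg)
open Pool.STAT.Glu (hN hv kN eval_hN hN_deg hN_vars pps)
open Pool.BFL (Pb)

/-! ### Real polynomials of bounded degree with bounded coefficients -/

/-- Degree `≤ d`, coefficients `≤ N`. -/
def PB (d : ℕ) (N : ℝ) (p : Polynomial ℝ) : Prop := p.natDegree ≤ d ∧ ∀ i, |p.coeff i| ≤ N

theorem PB.nn {d : ℕ} {N : ℝ} {p : Polynomial ℝ} (h : PB d N p) : 0 ≤ N :=
  (abs_nonneg _).trans (h.2 0)

theorem PB.mono {d d' : ℕ} {N N' : ℝ} {p : Polynomial ℝ} (h : PB d N p) (hd : d ≤ d')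
    (hN : N ≤ N') : PB d' N' p := ⟨h.1.trans hd, fun i => (h.2 i).trans hN⟩

theorem PB.ev {d : ℕ} {N : ℝ} {p : Polynomial ℝ} (h : PB d N p) (s : ℝ) :
    p.eval s = ∑ i ∈ range (d + 1), p.coeff i * s ^ i :=
  Polynomial.eval_eq_sum_range' (Nat.lt_succ_of_le h.1) s

/-- The value at a small time. -/
theorem PB.bd {d : ℕ} {N : ℝ} {p : Polynomial ℝ} (h : PB d N p) {s : ℝ} (hs : |s| ≤ 1) :
    |p.eval s| ≤ (d + 1) * N := by
  rw [h.ev s]
  refine (sum_bd _ _ (B := N) fun i _ => ?_).trans (le_of_eq ?_)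
  · rw [abs_mul, abs_pow]
    have h1 : |s| ^ i ≤ 1 := pow_le_one₀ (abs_nonneg _) hs
    calc |p.coeff i| * |s| ^ i ≤ N * 1 := mul_le_mul (h.2 i) h1 (by positivity) h.nn
      _ = N := mul_one N
  · rw [card_range]
    push_cast
    ring

/-- The constant of the variation. -/
def lpc (d : ℕ) : ℝ := (d + 1) * (d * 2 ^ d)

theorem lpc_nn (d : ℕ) : 0 ≤ lpc d := by unfold lpc; positivity

/-- The variation. -/
theorem PB.lip {d : ℕ} {N : ℝ} {p : Polynomial ℝ} (h : PB d N p) {s s' ρ : ℝ} (hs : |s| ≤ 2)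
    (hs' : |s'| ≤ 2) (hρ : |s - s'| ≤ ρ) : |p.eval s - p.eval s'| ≤ lpc d * N * ρ := by
  have hN := h.nn
  have hρ0 : 0 ≤ ρ := (abs_nonneg _).trans hρ
  rw [h.ev s, h.ev s', ← Finset.sum_sub_distrib]
  refine (sum_bd _ _ (B := N * (d * 2 ^ d * ρ)) fun i hi => ?_).trans (le_of_eq ?_)
  · rw [mem_range] at hi
    rw [← mul_sub, abs_mul]
    refine mul_le_mul (h.2 i) ?_ (abs_nonneg _) hN
    refine (abs_pow_sub_pow_le s s' i).trans ?_
    have h1 : max |s| |s'| ^ (i - 1) ≤ 2 ^ d := by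
      refine (pow_le_pow_left₀ (le_max_of_le_left (abs_nonneg _)) (max_le hs hs') _).trans ?_
      exact pow_le_pow_right₀ (by norm_num) (by omega)
    have h2 : (i : ℝ) ≤ d := by
      have : i ≤ d := by omega
      exact_mod_cast this
    calc |s - s'| * i * max |s| |s'| ^ (i - 1) ≤ ρ * d * 2 ^ d := by
          refine mul_le_mul (mul_le_mul hρ h2 (Nat.cast_nonneg i) hρ0) h1 ?_ (by positivity)
          have : 0 ≤ max |s| |s'| := le_max_of_le_left (abs_nonneg _)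
          positivity
      _ = _ := by ring
  · rw [card_range]
    unfold lpc
    push_cast
    ring

/-! ### The functional -/

open Classical in
/-- The functional. -/
noncomputable def L5 (g : ℕ → ℕ) (P : ℕ → PN) (Sl Gr : ℕ → Prop) (m w : ℕ) (t₀ : ℝ)
    (nv : ℕ → ℝ) (ep : ℕ → Polynomial ℝ) (x : ℕ → ℝ) : ℝ :=
  ∑ u ∈ (range (m + 1)).filter Gr, nv u * nat g P x u -
    ∑ k ∈ (range m).filter Sl, (ep k).eval (2 ^ w * (x 0 - t₀)) * nat g P x k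

/-- The slopes at the exact time. -/
noncomputable def ev5 (w : ℕ) (t₀ T : ℝ) (ep : ℕ → Polynomial ℝ) (k : ℕ) : ℝ :=
  (ep k).eval (2 ^ w * (T - t₀))

open Classical in
/-- **The functional on the box of the radius.** -/
theorem L5_near {g : ℕ → ℕ} {P : ℕ → PN} {Sl Gr : ℕ → Prop} {m w d : ℕ} {t₀ T N₀ ρ B : ℝ}
    {nv : ℕ → ℝ} {ep : ℕ → Polynomial ℝ} {x : ℕ → ℝ} (hep : ∀ k, PB d N₀ (ep k))
    (hT : |2 ^ w * (T - t₀)| ≤ 1) (hρ : 2 ^ w * |x 0 - T| ≤ ρ) (hρ1 : ρ ≤ 1)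
    (hx : ∀ k, Sl k → k < m → |nat g P x k| ≤ B) (hB : 0 ≤ B) :
    |L5 g P Sl Gr m w t₀ nv ep x - Lam g P Sl Gr m w t₀ nv (ev5 w t₀ T ep) (fun _ => 0) x| ≤
      m * (lpc d * N₀ * ρ * B) := by
  have hN := (hep 0).nn
  have hρ0 : 0 ≤ ρ := le_trans (by positivity) hρ
  have hl := lpc_nn d
  have e : L5 g P Sl Gr m w t₀ nv ep x - Lam g P Sl Gr m w t₀ nv (ev5 w t₀ T ep) (fun _ => 0) x =
      -∑ k ∈ (range m).filter Sl, ((ep k).eval (2 ^ w * (x 0 - t₀)) - ev5 w t₀ T ep k) *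
        nat g P x k := by
    unfold L5 Lam
    simp only [zero_mul, add_zero, sub_mul, Finset.sum_sub_distrib]
    ring
  rw [e, abs_neg]
  have hd : |2 ^ w * (x 0 - t₀) - 2 ^ w * (T - t₀)| ≤ ρ := by
    have : 2 ^ w * (x 0 - t₀) - 2 ^ w * (T - t₀) = 2 ^ w * (x 0 - T) := by ring
    rw [this, abs_mul, abs_of_pos (by positivity : (0 : ℝ) < 2 ^ w)]
    exact hρ
  have hs : |2 ^ w * (x 0 - t₀)| ≤ 2 := by
    have := abs_add_le (2 ^ w * (x 0 - t₀) - 2 ^ w * (T - t₀)) (2 ^ w * (T - t₀))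
    rw [sub_add_cancel] at this
    linarith
  refine (sum_bd _ _ (B := lpc d * N₀ * ρ * B) fun k hk => ?_).trans ?_
  · rw [mem_filter, mem_range] at hk
    rw [abs_mul]
    exact mul_le_mul ((hep k).lip hs (by linarith) hd) (hx k hk.2 hk.1) (abs_nonneg _)
      (by positivity)
  · refine mul_le_mul_of_nonneg_right ?_ (by positivity)
    exact_mod_cast (Finset.card_filter_le _ _).trans (card_range _).le

/-! ### The polynomial of the label -/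

theorem eval_ae (p : Polynomial ℝ) (Q : PN) (y : ℕ → ℝ) :
    eval y (Polynomial.aeval Q p) = p.eval (eval y Q) := by
  rw [Polynomial.aeval_def, Polynomial.hom_eval₂]
  have : (eval y).comp (algebraMap ℝ PN) = RingHom.id ℝ := by
    ext x
    simp
  rw [this, Polynomial.eval₂_id]

theorem ae_deg {p : Polynomial ℝ} {Q : PN} {d : ℕ} (hp : p.natDegree ≤ d)
    (hQ : Q.totalDegree ≤ 1) : (Polynomial.aeval Q p).totalDegree ≤ d := by
  rw [Polynomial.aeval_eq_sum_range]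
  refine totalDegree_finsetSum_le fun i hi => ?_
  rw [mem_range] at hi
  refine (totalDegree_smul_le _ _).trans ((totalDegree_pow _ _).trans ?_)
  calc i * Q.totalDegree ≤ i * 1 := Nat.mul_le_mul_left _ hQ
    _ ≤ d := by omega

theorem ae_vars {p : Polynomial ℝ} {Q : PN} {m : ℕ} (hQ : Q.vars ⊆ range m) :
    (Polynomial.aeval Q p).vars ⊆ range m := by
  rw [Polynomial.aeval_eq_sum_range]
  refine (vars_sum_subset _ _).trans (Finset.biUnion_subset.2 fun i _ => ?_)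
  rw [smul_eq_C_mul]
  exact AdxRow.vars_mul_le (AdxRow.vars_C_le _) ((vars_pow _ _).trans hQ)

/-- The scaled time as a polynomial. -/
noncomputable def tmq (g : ℕ → ℕ) (c₀ : ℝ) (w : ℕ) (t₀ : ℝ) : PN :=
  C (2 ^ w / 2 ^ g 0) * X 0 + C (2 ^ w * (c₀ - t₀))

theorem tmq_deg (g : ℕ → ℕ) (c₀ : ℝ) (w : ℕ) (t₀ : ℝ) : (tmq g c₀ w t₀).totalDegree ≤ 1 := by
  unfold tmq
  refine (totalDegree_add _ _).trans (max_le ?_ ?_)
  · refine (totalDegree_mul _ _).trans ?_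
    rw [totalDegree_C, totalDegree_X]
  · rw [totalDegree_C]
    exact zero_le_one

theorem tmq_vars (g : ℕ → ℕ) (c₀ : ℝ) (w : ℕ) (t₀ : ℝ) {m : ℕ} (hm : 1 ≤ m) :
    (tmq g c₀ w t₀).vars ⊆ range m :=
  AdxRow.vars_add_le (AdxRow.vars_mul_le (AdxRow.vars_C_le _) (AdxRow.vars_X_le hm))
    (AdxRow.vars_C_le _)

open Classical in
/-- The shape of the level sets. -/
noncomputable def shp5 (Sl Gr : ℕ → Prop) (g : ℕ → ℕ) (c₀ : ℝ) (m w : ℕ) (t₀ : ℝ)
    (nv : ℕ → ℝ) (ep : ℕ → Polynomial ℝ) : PN :=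
  ∑ k ∈ (range m).filter Sl, Polynomial.aeval (tmq g c₀ w t₀) (ep k) * X k -
  ∑ u ∈ (range m).filter Gr, C (nv u) * X u

open Classical in
theorem shp5_deg (Sl Gr : ℕ → Prop) (g : ℕ → ℕ) (c₀ : ℝ) (m w : ℕ) (t₀ : ℝ) (nv : ℕ → ℝ)
    {ep : ℕ → Polynomial ℝ} {d : ℕ} (hep : ∀ k, (ep k).natDegree ≤ d) :
    (shp5 Sl Gr g c₀ m w t₀ nv ep).totalDegree ≤ d + 1 := by
  unfold shp5
  refine (totalDegree_sub _ _).trans (max_le ?_ ?_)
  · refine totalDegree_finsetSum_le fun k _ => ?_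
    refine (totalDegree_mul _ _).trans ?_
    rw [totalDegree_X]
    have := ae_deg (hep k) (tmq_deg g c₀ w t₀)
    omega
  · refine totalDegree_finsetSum_le fun k _ => ?_
    refine (totalDegree_mul _ _).trans ?_
    rw [totalDegree_C, totalDegree_X]
    omega

open Classical in
theorem shp5_vars {Sl Gr : ℕ → Prop} (g : ℕ → ℕ) (c₀ : ℝ) {m : ℕ} (hm : 1 ≤ m) (w : ℕ) (t₀ : ℝ)
    (nv : ℕ → ℝ) (ep : ℕ → Polynomial ℝ) : (shp5 Sl Gr g c₀ m w t₀ nv ep).vars ⊆ range m := by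
  unfold shp5
  refine (vars_sub_subset _).trans (Finset.union_subset ?_ ?_)
  · refine (vars_sum_subset _ _).trans (Finset.biUnion_subset.2 fun k hk => ?_)
    rw [mem_filter, mem_range] at hk
    exact AdxRow.vars_mul_le (ae_vars (tmq_vars _ _ _ _ hm)) (AdxRow.vars_X_le hk.1)
  · refine (vars_sum_subset _ _).trans (Finset.biUnion_subset.2 fun k hk => ?_)
    rw [mem_filter, mem_range] at hk
    exact AdxRow.vars_mul_le (AdxRow.vars_C_le _) (AdxRow.vars_X_le hk.1)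

open Classical in
/-- The functional from the shape. -/
theorem L5_shp {Sl Gr : ℕ → Prop} {g : ℕ → ℕ} {P : ℕ → PN} (hP : TriN P) {m : ℕ} (hm : Gr m)
    (w : ℕ) (t₀ : ℝ) {nv : ℕ → ℝ} (hnv : nv m = 1) (ep : ℕ → Polynomial ℝ) (x x₀ : ℕ → ℝ) :
    L5 g P Sl Gr m w t₀ nv ep x =
      nat g P x m - eval (nat g P x) (shp5 Sl Gr g (eval x₀ (P 0)) m w t₀ nv ep) := by
  have e : (range (m + 1)).filter Gr = insert m ((range m).filter Gr) := by
    ext u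
    simp only [mem_filter, mem_range, mem_insert]
    constructor
    · rintro ⟨h1, h2⟩
      rcases Nat.lt_succ_iff_lt_or_eq.1 h1 with h3 | h3
      · exact Or.inr ⟨h3, h2⟩
      · exact Or.inl h3
    · rintro (h1 | ⟨h1, h2⟩)
      · rw [h1]
        exact ⟨Nat.lt_succ_self m, hm⟩
      · exact ⟨by omega, h2⟩
  have hc : eval x₀ (P 0) = eval x (P 0) :=
    Pool.SYS35.eval_congr (hP 0) fun i hi => absurd hi (Nat.not_lt_zero i)
  have h0 : nat g P x 0 = 2 ^ g 0 * (x 0 - eval x (P 0)) := rfl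
  unfold L5 shp5
  rw [e, Finset.sum_insert (by
    rw [mem_filter, mem_range]
    exact fun h => absurd h.1 (lt_irrefl m)), hnv, one_mul]
  simp only [map_sub, map_sum, map_mul, eval_C, eval_X, eval_ae]
  have h2 : (2 : ℝ) ^ g 0 ≠ 0 := by positivity
  have e1' : eval (nat g P x) (tmq g (eval x₀ (P 0)) w t₀) = 2 ^ w * (x 0 - t₀) := by
    unfold tmq
    simp only [map_add, map_mul, eval_C, eval_X]
    rw [hc, h0]
    field_simp
    ring
  rw [e1']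
  ring

/-- The polynomial. -/
noncomputable def hL5 (D : NDat2) (i j r : ℕ) (P : D.Γ × D.Γ → ℕ → PN) (Sl Gr : ℕ → Prop)
    (m w : ℕ) (t₀ : D.Ω → ℝ) (nv : D.Ω → ℕ → ℝ) (ep : D.Ω → ℕ → Polynomial ℝ) (ω : D.Ω) : PN :=
  hN (D.g i j) (P (bb D i j r ω)) m
    (shp5 Sl Gr (D.g i j) (eval (fun _ => 0) (P (bb D i j r ω) 0)) m w (t₀ ω) (nv ω) (ep ω))
    (D.pa (D.ln ω))

/-- **The value of the polynomial.** -/
theorem hL5_eval {D : NDat2} {i j r : ℕ} {P : D.Γ × D.Γ → ℕ → PN} {Sl Gr : ℕ → Prop} {m w : ℕ}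
    {t₀ : D.Ω → ℝ} {nv : D.Ω → ℕ → ℝ} {ep : D.Ω → ℕ → Polynomial ℝ} {ω : D.Ω}
    (hP : TriN (P (bb D i j r ω))) (hm : Gr m) (hnv : nv ω m = 1) (x : ℕ → ℝ) :
    2 ^ D.g i j m * (x m - eval x (hL5 D i j r P Sl Gr m w t₀ nv ep ω)) =
      L5 (D.g i j) (P (bb D i j r ω)) Sl Gr m w (t₀ ω) (nv ω) (ep ω) x -
      L5 (D.g i j) (P (bb D i j r ω)) Sl Gr m w (t₀ ω) (nv ω) (ep ω) (pp D (D.ln ω) (x 0)) := by
  unfold hL5
  rw [eval_hN, pps_pp]
  rw [L5_shp hP hm w (t₀ ω) hnv (ep ω) x (fun _ => 0),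
    L5_shp hP hm w (t₀ ω) hnv (ep ω) (pp D (D.ln ω) (x 0)) (fun _ => 0)]
  have e : ∀ b : ℕ → ℝ, Pool.STAT.CLO.nc (D.g i j) (P (bb D i j r ω)) b =
      nat (D.g i j) (P (bb D i j r ω)) b := fun b => rfl
  unfold hv
  rw [e, e]
  unfold nat
  have h2 : (2 : ℝ) ^ D.g i j m ≠ 0 := by positivity
  field_simp
  ring

theorem hL5_deg {D : NDat2} {n K K₁ K' J a₀ w₀ z M i j r : ℕ} {lam gam : ℕ → ℝ} {κ C₁ C : ℝ}
    {q : D.Ω → ℝ} (hO : D.Ok2 n K₁ J a₀ w₀ z M lam gam κ C₁ q) (hK₁ : K₁ ≤ K) (hK : K' ≤ K)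
    {P : D.Γ × D.Γ → ℕ → PN} {Sl Gr : ℕ → Prop} {m w d : ℕ} (hm : 1 ≤ m)
    {t₀ : D.Ω → ℝ} {nv : D.Ω → ℕ → ℝ} {ep : D.Ω → ℕ → Polynomial ℝ} {ω : D.Ω}
    (hep : ∀ k, (ep ω k).natDegree ≤ d)
    (hP : FrP D n K' z i j r C (P (bb D i j r ω)) ω) :
    (hL5 D i j r P Sl Gr m w t₀ nv ep ω).totalDegree ≤ kN K (d + 1) ∧
      (hL5 D i j r P Sl Gr m w t₀ nv ep ω).vars ⊆ range m :=
  ⟨hN_deg (fun l => (hP.deg l).trans hK) (fun l => (hO.pa_deg _ l).trans hK₁)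
      (shp5_deg _ _ _ _ _ _ _ _ hep),
    hN_vars hm hP.tri (shp5_vars _ _ hm _ _ _ _)⟩

/-- The exact point is on the polynomial. -/
theorem hL5_own {D : NDat2} {n K₁ J a₀ w₀ z M i j r m w : ℕ} {lam gam : ℕ → ℝ} {κ C₁ : ℝ}
    {q : D.Ω → ℝ} (hO : D.Ok2 n K₁ J a₀ w₀ z M lam gam κ C₁ q) {P : D.Γ × D.Γ → ℕ → PN}
    {Sl Gr : ℕ → Prop} {t₀ : D.Ω → ℝ} {nv : D.Ω → ℕ → ℝ} {ep : D.Ω → ℕ → Polynomial ℝ}
    {ω : D.Ω} (hω : 0 < q ω)
    (hP : TriN (P (bb D i j r ω))) (hD : Dic n Sl Gr) (hm : Gr m) (hmn : m ≤ n)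
    (hnv : nv ω m = 1) :
    eval (D.X ω) (hL5 D i j r P Sl Gr m w t₀ nv ep ω) = D.X ω m := by
  have h := hL5_eval (w := w) (t₀ := t₀) (ep := ep) (Sl := Sl) hP hm hnv (D.X ω)
  have e : ∀ l ≤ n, pp D (D.ln ω) (D.X ω 0) l = D.X ω l := by
    intro l hl
    unfold pp
    split_ifs with h0
    · rw [h0]
    · exact (hO.str ω hω l hl).symm
  have e2 : ∀ u ≤ n, nat (D.g i j) (P (bb D i j r ω)) (pp D (D.ln ω) (D.X ω 0)) u =
      nat (D.g i j) (P (bb D i j r ω)) (D.X ω) u := by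
    intro u hu
    unfold nat
    rw [e u hu, Pool.SYS35.eval_congr (hP u) fun i hi => e i (by omega)]
  have e3 : L5 (D.g i j) (P (bb D i j r ω)) Sl Gr m w (t₀ ω) (nv ω) (ep ω)
        (pp D (D.ln ω) (D.X ω 0)) =
      L5 (D.g i j) (P (bb D i j r ω)) Sl Gr m w (t₀ ω) (nv ω) (ep ω) (D.X ω) := by
    classical
    unfold L5
    rw [e 0 (Nat.zero_le n)]
    congr 1
    · refine Finset.sum_congr rfl fun u hu => ?_
      rw [mem_filter, mem_range] at hu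
      rw [e2 u (by omega)]
    · refine Finset.sum_congr rfl fun u hu => ?_
      rw [mem_filter, mem_range] at hu
      rw [e2 u (by omega)]
  rw [e3, sub_self] at h
  have h2 : (2 : ℝ) ^ D.g i j m ≠ 0 := by positivity
  have := (mul_eq_zero.1 h).resolve_left h2
  linarith

end Pool.P5
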